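import Pool.Agent.Q68.PM.Low

set_option autoImplicit false

/-!
# Two-sided bounds for the normalised logarithm of the permanent
-/

open Finset Real

namespace Pool.Agent.Q68.PM

/-- The average of a finite family. -/
noncomputable def av {n : ℕ} (r : Fin n → ℝ) : ℝ := (∑ i, r i) / n

theorem per_pos {n : ℕ} {A : Fin n → Fin n → ℝ} (h : ∀ i j, 0 < A i j) : 0 < per A :=
  sum_pos (fun σ _ => prod_pos fun i _ => h i (σ i)) ⟨1, mem_univ _⟩

theorem upper_log {n : ℕ} (hn : 1 ≤ n) {A : Fin n → Fin n → ℝ} {a b : ℝ} (ha : 0 < a)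
    (h1 : ∀ i j, a ≤ A i j) (h2 : ∀ i j, A i j ≤ b) :
    Real.log (per A / n.factorial) / n ≤
      av (fun i => |av (A i) - 1|) + 3 * b * ((1 + Real.log n) / n) := by
  have hA : ∀ i j, 0 < A i j := fun i j => ha.trans_le (h1 i j)
  have hn0 : (0:ℝ) < n := by exact_mod_cast hn
  have hln : 0 ≤ Real.log n := Real.log_nonneg (by exact_mod_cast hn)
  set i0 : Fin n := ⟨0, hn⟩
  have hab : a ≤ b := (h1 i0 i0).trans (h2 i0 i0)
  have hb : 0 < b := ha.trans_le hab
  have hper := per_pos hA
  have hfac : (0:ℝ) < n.factorial := by exact_mod_cast n.factorial_pos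
  have h3 := per_le hn hb (fun i j => (hA i j).le) h2
  have hR0 : ∀ i, 0 < ∑ j, A i j := fun i => sum_pos (fun j _ => hA i j) ⟨i, mem_univ i⟩
  have hκ : 0 ≤ b * (3 * (1 + Real.log n)) := by positivity
  have hpos : ∀ i, 0 < ((∑ j, A i j) + b * (3 * (1 + Real.log n))) / Real.exp 1 := by
    intro i
    have := hR0 i
    have := Real.exp_pos 1
    positivity
  have h4 : Real.log (per A) ≤ ∑ i, Real.log (((∑ j, A i j) + b * (3 * (1 + Real.log n))) / Real.exp 1) := by
    rw [← Real.log_prod (fun i _ => (hpos i).ne')]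
    exact Real.log_le_log hper h3
  have h5 : (n:ℝ) * Real.log n - n ≤ Real.log n.factorial := by
    have h6 := Real.pow_div_factorial_le_exp (n:ℝ) hn0.le n
    rw [div_le_iff₀ hfac] at h6
    have h7 := Real.log_le_log (by positivity) h6
    rw [Real.log_pow, Real.log_mul (Real.exp_pos _).ne' hfac.ne', Real.log_exp] at h7
    linarith
  have h8 : ∀ i, Real.log (((∑ j, A i j) + b * (3 * (1 + Real.log n))) / Real.exp 1) ≤
      Real.log n - 1 + (|av (A i) - 1| + 3 * b * ((1 + Real.log n) / n)) := by
    intro i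
    have h9 : 0 < (∑ j, A i j) + b * (3 * (1 + Real.log n)) := by
      have := hR0 i
      positivity
    rw [Real.log_div h9.ne' (Real.exp_pos 1).ne', Real.log_exp]
    have h10 : (∑ j, A i j) + b * (3 * (1 + Real.log n)) =
        n * (av (A i) + 3 * b * ((1 + Real.log n) / n)) := by
      unfold av
      field_simp
    have h11 : 0 < av (A i) + 3 * b * ((1 + Real.log n) / n) := by
      have := hR0 i
      unfold av
      positivity
    rw [h10, Real.log_mul hn0.ne' h11.ne']
    have h12 := Real.log_le_sub_one_of_pos h11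
    have h13 := le_abs_self (av (A i) - 1)
    linarith
  have h14 := h4.trans (sum_le_sum fun i _ => h8 i)
  rw [sum_add_distrib, sum_add_distrib, sum_const, sum_const, card_univ, Fintype.card_fin,
    nsmul_eq_mul, nsmul_eq_mul] at h14
  rw [Real.log_div hper.ne' hfac.ne', div_le_iff₀ hn0]
  have h15 : (av (fun i => |av (A i) - 1|) + 3 * b * ((1 + Real.log n) / n)) * n =
      ∑ i, |av (A i) - 1| + n * (3 * b * ((1 + Real.log n) / n)) := by
    unfold av
    field_simp
  rw [h15]
  linarith

theorem lower_log {n : ℕ} (hn : 1 ≤ n) {A : Fin n → Fin n → ℝ} {a b : ℝ} (ha : 0 < a)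
    (h1 : ∀ i j, a ≤ A i j) (h2 : ∀ i j, A i j ≤ b) :
    -(1 / a + Real.log (b / a) * (b / a)) * av (fun i => |av (A i) - 1|) -
      Real.log (b / a) * av (fun j => |av (fun i => A i j) - 1|) ≤
      Real.log (per A / n.factorial) / n := by
  have hA : ∀ i j, 0 < A i j := fun i j => ha.trans_le (h1 i j)
  have hn0 : (0:ℝ) < n := by exact_mod_cast hn
  set i0 : Fin n := ⟨0, hn⟩
  have hab : a ≤ b := (h1 i0 i0).trans (h2 i0 i0)
  have hb : 0 < b := ha.trans_le hab
  have hΛ : 0 ≤ Real.log (b / a) := Real.log_nonneg ((one_le_div ha).2 hab)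
  have hper := per_pos hA
  have hfac : (0:ℝ) < n.factorial := by exact_mod_cast n.factorial_pos
  have hR0 : ∀ i, 0 < ∑ j, A i j := fun i => sum_pos (fun j _ => hA i j) ⟨i, mem_univ i⟩
  have hr0 : ∀ i, a ≤ av (A i) := by
    intro i
    unfold av
    rw [le_div_iff₀ hn0]
    calc a * n = ∑ _j : Fin n, a := by
          rw [sum_const, card_univ, Fintype.card_fin, nsmul_eq_mul, mul_comm]
      _ ≤ ∑ j, A i j := sum_le_sum fun j _ => h1 i j
  have h3 := per_ge ha h1 h2
  set Q := ∑ i, Real.log (∑ j, A i j) -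
      Real.log (b / a) * ∑ j, |∑ i, A i j / (∑ k, A i k) - 1| with hQ
  have h4 : Q - n * Real.log n ≤ Real.log (per A / n.factorial) := by
    have h5 : Real.exp Q / (n:ℝ) ^ n ≤ per A / n.factorial := by
      rw [le_div_iff₀ hfac]
      calc Real.exp Q / (n:ℝ) ^ n * n.factorial = Real.exp Q * ((n.factorial : ℝ) / (n:ℝ) ^ n) := by
            ring
        _ ≤ per A := h3
    have h6 := Real.log_le_log (by positivity) h5
    rw [Real.log_div (Real.exp_pos _).ne' (by positivity), Real.log_exp, Real.log_pow] at h6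
    exact h6
  have h5 : ∀ i, Real.log n - 1 / a * |av (A i) - 1| ≤ Real.log (∑ j, A i j) := by
    intro i
    have e : ∑ j, A i j = n * av (A i) := by
      unfold av
      field_simp
    have hri : 0 < av (A i) := ha.trans_le (hr0 i)
    rw [e, Real.log_mul hn0.ne' hri.ne']
    have h6 := Real.one_sub_inv_le_log_of_pos hri
    have h7 : -(1 / a * |av (A i) - 1|) ≤ 1 - (av (A i))⁻¹ := by
      have h8 : 1 - (av (A i))⁻¹ = (av (A i) - 1) / av (A i) := by
        field_simp
      rw [h8]
      have h9 : |(av (A i) - 1) / av (A i)| ≤ 1 / a * |av (A i) - 1| := by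
        rw [abs_div, abs_of_pos hri, div_eq_mul_one_div, mul_comm]
        exact mul_le_mul_of_nonneg_right (one_div_le_one_div_of_le ha (hr0 i)) (abs_nonneg _)
      exact (neg_le_neg h9).trans (neg_abs_le _)
    linarith
  have h6 : ∀ j, |∑ i, A i j / (∑ k, A i k) - 1| ≤
      |av (fun i => A i j) - 1| + b / a * av (fun i => |av (A i) - 1|) := by
    intro j
    have e : ∑ i, A i j / (∑ k, A i k) - 1 = (av (fun i => A i j) - 1) +
        ∑ i, (A i j / (∑ k, A i k) - A i j / n) := by
      rw [sum_sub_distrib]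
      unfold av
      rw [sum_div]
      ring
    rw [e]
    refine (abs_add_le _ _).trans ?_
    apply add_le_add_right
    refine (abs_sum_le_sum_abs _ _).trans ?_
    have h7 : ∀ i, |A i j / (∑ k, A i k) - A i j / n| ≤ b / a * (|av (A i) - 1| / n) := by
      intro i
      have hri : 0 < av (A i) := ha.trans_le (hr0 i)
      have e2 : ∑ k, A i k = n * av (A i) := by
        unfold av
        field_simp
      have e3 : A i j / (∑ k, A i k) - A i j / n = (A i j / av (A i)) * ((1 - av (A i)) / n) := by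
        rw [e2]
        field_simp
      rw [e3, abs_mul, abs_div, abs_div, abs_of_pos hri, abs_of_pos hn0, abs_of_pos (hA i j),
        abs_sub_comm]
      apply mul_le_mul_of_nonneg_right _ (by positivity)
      exact div_le_div₀ hb.le (h2 i j) ha (hr0 i)
    refine (sum_le_sum fun i _ => h7 i).trans (le_of_eq ?_)
    rw [← mul_sum]
    unfold av
    rw [← sum_div]
  have h7 : (n:ℝ) * Real.log n - 1 / a * ∑ i, |av (A i) - 1| ≤ ∑ i, Real.log (∑ j, A i j) := by
    have := sum_le_sum fun i (_ : i ∈ (univ : Finset (Fin n))) => h5 i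
    rw [sum_sub_distrib, sum_const, card_univ, Fintype.card_fin, nsmul_eq_mul, ← mul_sum] at this
    exact this
  have h8 : ∑ j, |∑ i, A i j / (∑ k, A i k) - 1| ≤
      ∑ j, |av (fun i => A i j) - 1| + n * (b / a * av (fun i => |av (A i) - 1|)) := by
    have := sum_le_sum fun j (_ : j ∈ (univ : Finset (Fin n))) => h6 j
    rw [sum_add_distrib, sum_const, card_univ, Fintype.card_fin, nsmul_eq_mul] at this
    exact this
  have h9 := mul_le_mul_of_nonneg_left h8 hΛ
  rw [le_div_iff₀ hn0]
  refine le_trans ?_ h4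
  rw [hQ]
  have e1 : av (fun i => |av (A i) - 1|) * n = ∑ i, |av (A i) - 1| := by
    unfold av
    field_simp
  have e2 : av (fun j => |av (fun i => A i j) - 1|) * n = ∑ j, |av (fun i => A i j) - 1| := by
    unfold av
    field_simp
  have e3 : (-(1 / a + Real.log (b / a) * (b / a)) * av (fun i => |av (A i) - 1|) -
      Real.log (b / a) * av (fun j => |av (fun i => A i j) - 1|)) * n =
      -(1 / a) * (av (fun i => |av (A i) - 1|) * n) -
      Real.log (b / a) * ((av (fun j => |av (fun i => A i j) - 1|) * n) +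
        n * (b / a * av (fun i => |av (A i) - 1|))) := by ring
  rw [e3, e1, e2]
  linarith

end Pool.Agent.Q68.PM
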