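import Pool.Agent.Q68.PM.Erg

set_option autoImplicit false

/-!
# The permanents of the matrices sampled from a nearly doubly stochastic function
-/

open MeasureTheory Filter Topology Real

namespace Pool.Agent.Q68.PM

open _root_.Q68.PET

variable {Ω : Type*} [MeasurableSpace Ω]

/-- The matrix sampled along the orbit. -/
def mat (T₁ T₂ : Ω → Ω) (f : Ω → ℝ) (n : ℕ) (ω : Ω) : Fin n → Fin n → ℝ :=
  fun i j => f (T₁^[i] (T₂^[j] ω))

/-- The normalised logarithm of the permanent. -/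
noncomputable def LL (T₁ T₂ : Ω → Ω) (f : Ω → ℝ) (n : ℕ) (ω : Ω) : ℝ :=
  Real.log (per (mat T₁ T₂ f n ω) / n.factorial) / n

theorem log_div_tendsto : Tendsto (fun n : ℕ => (1 + Real.log n) / n) atTop (𝓝 0) := by
  have h1 : Tendsto (fun n : ℕ => (1:ℝ) / n) atTop (𝓝 0) := tendsto_const_div_atTop_nhds_zero_nat 1
  have h2 : Tendsto (fun x : ℝ => Real.log x / x) atTop (𝓝 0) := by
    have := Real.tendsto_pow_log_div_mul_add_atTop 1 0 1 one_ne_zero
    simpa using this
  have h3 := h2.comp tendsto_natCast_atTop_atTop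
  have h4 := h1.add h3
  rw [add_zero] at h4
  refine h4.congr fun n => ?_
  simp only [Function.comp]
  rw [← add_div]

theorem core {P : Measure Ω} [IsProbabilityMeasure P] {T₁ T₂ : Ω → Ω} (h : Act P T₁ T₂)
    {F : Ω → ℝ} (hFm : Measurable F) {a b : ℝ} (ha : 0 < a) (h1 : ∀ ω, a ≤ F ω) (h2 : ∀ ω, F ω ≤ b)
    (hF2 : ∀ᵐ ω ∂P, (P[F | MeasurableSpace.invariants T₂]) ω = 1) {θ : Ω → ℝ}
    (hθm : Measurable[MeasurableSpace.invariants T₁] θ) (hθa : ∀ ω, 0 ≤ θ ω) (hθb : ∀ ω, θ ω ≤ b)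
    (hθ : ∀ᵐ ω ∂P, (P[F | MeasurableSpace.invariants T₁]) ω = θ ω) :
    ∀ᵐ ω ∂P, ∀ ε : ℝ, 0 < ε → ∀ᶠ n : ℕ in atTop,
      -(Real.log (b / a) * ∫ ω, |θ ω - 1| ∂P) - ε ≤ LL T₁ T₂ F n ω ∧ LL T₁ T₂ F n ω ≤ ε := by
  obtain ⟨ω₀⟩ : Nonempty Ω := by
    by_contra hc
    rw [not_nonempty_iff] at hc
    have h3 : P Set.univ = 0 := by
      rw [Set.eq_empty_of_isEmpty (Set.univ : Set Ω), measure_empty]
    rw [measure_univ] at h3
    exact one_ne_zero h3
  have hab : a ≤ b := (h1 ω₀).trans (h2 ω₀)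
  have hb : 0 < b := ha.trans_le hab
  have hF0 : ∀ ω, 0 ≤ F ω := fun ω => ha.le.trans (h1 ω)
  have hFi : Integrable F P := by
    apply Integrable.mono' (integrable_const b) hFm.aestronglyMeasurable
    filter_upwards with ω
    rw [Real.norm_eq_abs, abs_of_nonneg (hF0 ω)]
    exact h2 ω
  have hSm : ∀ (T : Ω → Ω), Measurable T → ∀ n, Measurable (S T F n) := by
    intro T hT n
    apply Finset.measurable_sum
    intro i _
    exact hFm.comp (hT.iterate i)
  have hS0 : ∀ (T : Ω → Ω) n ω, 0 ≤ S T F n ω / n := fun T n ω =>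
    div_nonneg (Finset.sum_nonneg fun i _ => hF0 _) (by positivity)
  have hSb : ∀ (T : Ω → Ω) n ω, S T F n ω / n ≤ b := by
    intro T n ω
    rcases Nat.eq_zero_or_pos n with hn | hn
    · subst hn
      simp [hb.le]
    · have hn0 : (0:ℝ) < n := by exact_mod_cast hn
      rw [div_le_iff₀ hn0]
      calc S T F n ω ≤ ∑ _i ∈ Finset.range n, b := Finset.sum_le_sum fun i _ => h2 _
        _ = b * n := by rw [Finset.sum_const, Finset.card_range, nsmul_eq_mul, mul_comm]
  -- the rows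
  have hrow := row h.m1 (h := fun n ω => S T₂ F n ω / n - 1) (K := b + 1)
    (fun n => ((hSm T₂ h.m2.measurable n).div_const _).sub_const _)
    (fun n ω => by
      have := hS0 T₂ n ω
      have := hSb T₂ n ω
      rw [abs_le]
      constructor <;> linarith)
    (by
      filter_upwards [pointwise h.m2 hFi, hF2] with ω h3 h4
      rw [h4] at h3
      have := h3.sub_const 1
      rwa [sub_self] at this)
  -- the columns
  have hθm' : Measurable θ := inv_meas hθm
  have hcol := row h.m2 (h := fun n ω => S T₁ F n ω / n - θ ω) (K := b)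
    (fun n => ((hSm T₁ h.m1.measurable n).div_const _).sub hθm')
    (fun n ω => by
      have := hS0 T₁ n ω
      have := hSb T₁ n ω
      have := hθa ω
      have := hθb ω
      rw [abs_le]
      constructor <;> linarith)
    (by
      filter_upwards [pointwise h.m1 hFi, hθ] with ω h3 h4
      rw [h4] at h3
      have := h3.sub_const (θ ω)
      rwa [sub_self] at this)
  have hθ1m : Measurable[MeasurableSpace.invariants T₁] fun ω => |θ ω - 1| := by
    have hg : Measurable (fun t : ℝ => |t - 1|) := by fun_prop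
    exact hg.comp hθm
  have hθ1i : Integrable (fun ω => |θ ω - 1|) P := by
    apply Integrable.mono' (integrable_const (b + 1)) (inv_meas hθ1m).aestronglyMeasurable
    filter_upwards with ω
    rw [Real.norm_eq_abs, abs_abs, abs_le]
    have := hθa ω
    have := hθb ω
    constructor <;> linarith
  have hcol2 := h.swap.avg hθ1m hθ1i
  filter_upwards [hrow, hcol, hcol2] with ω h3 h4 h5 ε hε
  have hΛ : 0 ≤ Real.log (b / a) := Real.log_nonneg ((one_le_div ha).2 hab)
  set Λ := Real.log (b / a) with hΛdef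
  set I := ∫ ω, |θ ω - 1| ∂P with hI
  set C1 := 1 / a + Λ * (b / a) with hC1
  have hC10 : 0 ≤ C1 := by positivity
  -- identification of the averages
  have hrowav : ∀ n : ℕ, av (fun i : Fin n => |av (mat T₁ T₂ F n ω i) - 1|) =
      S T₁ (fun ω => |S T₂ F n ω / n - 1|) n ω / n := by
    intro n
    unfold av
    congr 1
    rw [S, Finset.sum_range]
    apply Finset.sum_congr rfl
    intro i _
    have e : ∑ j : Fin n, mat T₁ T₂ F n ω i j =
        ∑ j ∈ Finset.range n, F (T₂^[j] (T₁^[(i:ℕ)] ω)) := by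
      rw [Finset.sum_range]
      apply Finset.sum_congr rfl
      intro j _
      unfold mat
      rw [h.comm_iter2]
    show |(∑ j : Fin n, mat T₁ T₂ F n ω i j) / (n:ℝ) - 1| =
      |(∑ j ∈ Finset.range n, F (T₂^[j] (T₁^[(i:ℕ)] ω))) / (n:ℝ) - 1|
    rw [e]
  have hcolav : ∀ n : ℕ, av (fun j : Fin n => |av (fun i => mat T₁ T₂ F n ω i j) - 1|) ≤
      S T₂ (fun ω => |S T₁ F n ω / n - θ ω|) n ω / n + S T₂ (fun ω => |θ ω - 1|) n ω / n := by
    intro n
    unfold av
    rw [← add_div]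
    apply div_le_div_of_nonneg_right _ (by positivity)
    unfold S
    rw [← Finset.sum_add_distrib, Finset.sum_range]
    apply Finset.sum_le_sum
    intro j _
    have e : (∑ i : Fin n, mat T₁ T₂ F n ω i j) / (n:ℝ) - 1 =
        ((∑ i ∈ Finset.range n, F (T₁^[i] (T₂^[(j:ℕ)] ω))) / (n:ℝ) - θ (T₂^[(j:ℕ)] ω)) +
          (θ (T₂^[(j:ℕ)] ω) - 1) := by
      rw [Finset.sum_range]
      unfold mat
      ring
    rw [e]
    exact abs_add_le _ _
  have hlog := log_div_tendsto.const_mul (3 * b)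
  rw [mul_zero] at hlog
  have hA := h3.const_mul (C1 + 1)
  rw [mul_zero] at hA
  have hB : Tendsto (fun n : ℕ => Λ * (S T₂ (fun ω => |S T₁ F n ω / n - θ ω|) n ω / n +
      S T₂ (fun ω => |θ ω - 1|) n ω / n)) atTop (𝓝 (Λ * (0 + I))) := (h4.add h5).const_mul Λ
  rw [zero_add] at hB
  filter_upwards [eventually_ge_atTop 1, hA.eventually (gt_mem_nhds (show 0 < ε / 2 by positivity)),
    hB.eventually (gt_mem_nhds (show Λ * I < Λ * I + ε / 2 by linarith)),
    hlog.eventually (gt_mem_nhds (show 0 < ε / 2 by positivity))] with n hn e1 e2 e3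
  have hnn : 0 ≤ S T₁ (fun ω => |S T₂ F n ω / n - 1|) n ω / n :=
    div_nonneg (Finset.sum_nonneg fun i _ => abs_nonneg _) (by positivity)
  constructor
  · have h6 := lower_log hn ha (fun i j => h1 (T₁^[i] (T₂^[(j : Fin n)] ω)))
      (fun i j => h2 (T₁^[i] (T₂^[(j : Fin n)] ω)))
    have h7 : -C1 * av (fun i : Fin n => |av (mat T₁ T₂ F n ω i) - 1|) -
      Λ * av (fun j : Fin n => |av (fun i => mat T₁ T₂ F n ω i j) - 1|) ≤ LL T₁ T₂ F n ω := h6
    rw [hrowav] at h7
    have h8 := mul_le_mul_of_nonneg_left (hcolav n) hΛ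
    nlinarith
  · have h6 := upper_log hn ha (fun i j => h1 (T₁^[i] (T₂^[(j : Fin n)] ω)))
      (fun i j => h2 (T₁^[i] (T₂^[(j : Fin n)] ω)))
    have h7 : LL T₁ T₂ F n ω ≤ av (fun i : Fin n => |av (mat T₁ T₂ F n ω i) - 1|) +
      3 * b * ((1 + Real.log n) / n) := h6
    rw [hrowav] at h7
    nlinarith

end Pool.Agent.Q68.PM
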