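import Pool.Agent.Q68.PM.Both
import Pool.Agent.Q68.PET

set_option autoImplicit false

/-!
# Averages along an ergodic action of `ℕ²`
-/

open MeasureTheory Filter Topology Real

namespace Pool.Agent.Q68.PM

open _root_.Q68.PET

variable {Ω : Type*} [MeasurableSpace Ω]

/-- An ergodic measure-preserving action of `ℕ²`, given by the two commuting generators. -/
structure Act (P : Measure Ω) (T₁ T₂ : Ω → Ω) : Prop where
  m1 : MeasurePreserving T₁ P P
  m2 : MeasurePreserving T₂ P P
  comm : ∀ ω, T₁ (T₂ ω) = T₂ (T₁ ω)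
  erg : ∀ A : Set Ω, MeasurableSet A → T₁ ⁻¹' A = A → T₂ ⁻¹' A = A → P A = 0 ∨ P A = 1

theorem Act.swap {P : Measure Ω} {T₁ T₂ : Ω → Ω} (h : Act P T₁ T₂) : Act P T₂ T₁ :=
  ⟨h.m2, h.m1, fun ω => (h.comm ω).symm, fun A hA h1 h2 => h.erg A hA h2 h1⟩

theorem Act.comm_iter {P : Measure Ω} {T₁ T₂ : Ω → Ω} (h : Act P T₁ T₂) (i : ℕ) (ω : Ω) :
    T₁^[i] (T₂ ω) = T₂ (T₁^[i] ω) := by
  induction i generalizing ω with
  | zero => rfl
  | succ i ih => rw [Function.iterate_succ_apply, h.comm, ih, ← Function.iterate_succ_apply]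

theorem Act.comm_iter2 {P : Measure Ω} {T₁ T₂ : Ω → Ω} (h : Act P T₁ T₂) (i j : ℕ) (ω : Ω) :
    T₁^[i] (T₂^[j] ω) = T₂^[j] (T₁^[i] ω) := by
  induction j generalizing ω with
  | zero => rfl
  | succ j ih => rw [Function.iterate_succ_apply, ih, h.comm_iter, ← Function.iterate_succ_apply]

theorem inv_iter {T : Ω → Ω} {g : Ω → ℝ} (hg : Measurable[MeasurableSpace.invariants T] g) (i : ℕ)
    (ω : Ω) : g (T^[i] ω) = g ω := by
  induction i generalizing ω with
  | zero => rfl
  | succ i ih =>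
    rw [Function.iterate_succ_apply, ih]
    exact congrFun (MeasurableSpace.comp_eq_of_measurable_invariants hg) ω

theorem inv_meas {T : Ω → Ω} {g : Ω → ℝ} (hg : Measurable[MeasurableSpace.invariants T] g) :
    Measurable g := fun _ hs => (hg hs).1

/-- A `T₁`-invariant function which is almost everywhere `T₂`-invariant is constant. -/
theorem Act.const {P : Measure Ω} [IsProbabilityMeasure P] {T₁ T₂ : Ω → Ω} (h : Act P T₁ T₂)
    {g : Ω → ℝ} (hg : Measurable[MeasurableSpace.invariants T₁] g) (h2 : ∀ᵐ ω ∂P, g (T₂ ω) = g ω) :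
    ∃ c : ℝ, ∀ᵐ ω ∂P, g ω = c := by
  have hgm : Measurable g := inv_meas hg
  have hall : ∀ᵐ ω ∂P, ∀ n : ℕ, g (T₂^[n] ω) = g ω := by
    filter_upwards [ae_iterate h.m2 h2] with ω hω n
    induction n with
    | zero => rfl
    | succ n ih => rw [Function.iterate_succ_apply', hω n, ih]
  have hsep := Filter.exists_eventuallyEq_const_of_forall_separating (l := ae P) (f := g)
    (MeasurableSet : Set ℝ → Prop) (by
    intro U hU
    set A : Set Ω := ⋂ N : ℕ, ⋃ n : ℕ, {ω | g (T₂^[N + n] ω) ∈ U} with hA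
    have hAm : MeasurableSet A := by
      apply MeasurableSet.iInter
      intro N
      apply MeasurableSet.iUnion
      intro n
      exact (hgm.comp (h.m2.measurable.iterate _)) hU
    have hmem : ∀ ω, ω ∈ A ↔ ∀ N : ℕ, ∃ n : ℕ, g (T₂^[N + n] ω) ∈ U := by
      intro ω
      simp only [hA, Set.mem_iInter, Set.mem_iUnion]
      rfl
    have hA1 : T₁ ⁻¹' A = A := by
      ext ω
      rw [Set.mem_preimage, hmem, hmem]
      have e : ∀ k, g (T₂^[k] (T₁ ω)) = g (T₂^[k] ω) := by
        intro k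
        rw [h.swap.comm_iter]
        exact congrFun (MeasurableSpace.comp_eq_of_measurable_invariants hg) _
      simp only [e]
    have hA2 : T₂ ⁻¹' A = A := by
      ext ω
      rw [Set.mem_preimage, hmem, hmem]
      constructor
      · intro H N
        obtain ⟨n, hn⟩ := H N
        refine ⟨n + 1, ?_⟩
        rw [← Function.iterate_succ_apply] at hn
        exact hn
      · intro H N
        obtain ⟨n, hn⟩ := H (N + 1)
        refine ⟨n, ?_⟩
        rw [← Function.iterate_succ_apply]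
        have : (N + n).succ = N + 1 + n := by omega
        rw [this]
        exact hn
    have hAg : ∀ᵐ ω ∂P, ω ∈ A ↔ g ω ∈ U := by
      filter_upwards [hall] with ω hω
      rw [hmem]
      simp only [hω]
      exact ⟨fun H => (H 0).choose_spec, fun H _ => ⟨0, H⟩⟩
    rcases h.erg A hAm hA1 hA2 with h0 | h0
    · right
      have : ∀ᵐ ω ∂P, ω ∉ A := by
        rw [ae_iff]
        simpa using h0
      filter_upwards [this, hAg] with ω h3 h4 h5
      exact h3 (h4.2 h5)
    · left
      have : ∀ᵐ ω ∂P, ω ∈ A := by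
        rw [ae_iff]
        exact (prob_compl_eq_zero_iff hAm).2 h0
      filter_upwards [this, hAg] with ω h3 h4
      exact h4.1 h3)
  obtain ⟨c, hc⟩ := hsep
  exact ⟨c, hc⟩

/-- Independence of the two sigma-algebras of invariant sets. -/
theorem Act.indep {P : Measure Ω} [IsProbabilityMeasure P] {T₁ T₂ : Ω → Ω} (h : Act P T₁ T₂)
    {g : Ω → ℝ} (hg : Measurable[MeasurableSpace.invariants T₂] g) (hgi : Integrable g P) :
    ∀ᵐ ω ∂P, (P[g | MeasurableSpace.invariants T₁]) ω = ∫ ω, g ω ∂P := by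
  have hle := MeasurableSpace.invariants_le T₁
  have hB := pointwise h.m1 hgi
  have hS : ∀ n ω, S T₁ g n (T₂ ω) = S T₁ g n ω := by
    intro n ω
    unfold S
    apply Finset.sum_congr rfl
    intro i _
    rw [h.comm_iter]
    exact congrFun (MeasurableSpace.comp_eq_of_measurable_invariants hg) _
  have h2 : ∀ᵐ ω ∂P, (P[g | MeasurableSpace.invariants T₁]) (T₂ ω) =
      (P[g | MeasurableSpace.invariants T₁]) ω := by
    filter_upwards [hB, h.m2.quasiMeasurePreserving.ae hB] with ω h3 h4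
    refine tendsto_nhds_unique h4 ?_
    refine h3.congr fun n => ?_
    rw [hS]
  obtain ⟨c, hc⟩ := h.const (stronglyMeasurable_condExp.measurable) h2
  have hint : ∫ ω, (P[g | MeasurableSpace.invariants T₁]) ω ∂P = ∫ ω, g ω ∂P := integral_condExp hle
  have hint2 : ∫ ω, (P[g | MeasurableSpace.invariants T₁]) ω ∂P = c := by
    rw [integral_congr_ae hc]
    simp
  filter_upwards [hc] with ω hω
  rw [hω, ← hint2, hint]

/-- Averages along `T₁` of a `T₂`-invariant function. -/
theorem Act.avg {P : Measure Ω} [IsProbabilityMeasure P] {T₁ T₂ : Ω → Ω} (h : Act P T₁ T₂)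
    {g : Ω → ℝ} (hg : Measurable[MeasurableSpace.invariants T₂] g) (hgi : Integrable g P) :
    ∀ᵐ ω ∂P, Tendsto (fun n : ℕ => S T₁ g n ω / n) atTop (𝓝 (∫ ω, g ω ∂P)) := by
  filter_upwards [pointwise h.m1 hgi, h.indep hg hgi] with ω h1 h2
  rwa [h2] at h1

/-- Averages of a sequence of bounded functions which tends to zero. -/
theorem row {P : Measure Ω} [IsProbabilityMeasure P] {T : Ω → Ω} (hT : MeasurePreserving T P P)
    {h : ℕ → Ω → ℝ} (hm : ∀ n, Measurable (h n)) {K : ℝ} (hK : ∀ n ω, |h n ω| ≤ K)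
    (hlim : ∀ᵐ ω ∂P, Tendsto (fun n => h n ω) atTop (𝓝 0)) :
    ∀ᵐ ω ∂P, Tendsto (fun n : ℕ => S T (fun ω => |h n ω|) n ω / n) atTop (𝓝 0) := by
  have hle := MeasurableSpace.invariants_le T
  -- the bad sets
  set B : ℕ → ℕ → Set Ω := fun k N => ⋃ n : ℕ, {ω | 1 / ((k:ℝ) + 1) < |h (N + n) ω|} with hB
  have hBm : ∀ k N, MeasurableSet (B k N) := fun k N =>
    MeasurableSet.iUnion fun n => measurableSet_lt measurable_const ((hm _).abs)
  have hB0 : ∀ k, Tendsto (fun N => P (B k N)) atTop (𝓝 0) := by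
    intro k
    have hanti : Antitone (B k) := by
      intro N M hNM ω hω
      rw [Set.mem_iUnion] at hω ⊢
      obtain ⟨n, hn⟩ := hω
      refine ⟨M - N + n, ?_⟩
      have : N + (M - N + n) = M + n := by omega
      show 1 / ((k:ℝ) + 1) < |h (N + (M - N + n)) ω|
      rw [this]
      exact hn
    have h1 := tendsto_measure_iInter_atTop (μ := P) (s := B k)
      (fun N => (hBm k N).nullMeasurableSet) hanti ⟨0, measure_ne_top _ _⟩
    have h2 : P (⋂ N, B k N) = 0 := by
      have h3 : ∀ᵐ ω ∂P, ω ∉ ⋂ N, B k N := by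
        filter_upwards [hlim] with ω hω hmem
        rw [Set.mem_iInter] at hmem
        have h4 := hω.abs
        rw [abs_zero] at h4
        have h5 := h4.eventually (gt_mem_nhds (show (0:ℝ) < 1 / ((k:ℝ) + 1) by positivity))
        rw [eventually_atTop] at h5
        obtain ⟨N, hN⟩ := h5
        have h6 := hmem N
        rw [Set.mem_iUnion] at h6
        obtain ⟨n, hn⟩ := h6
        exact absurd (hN (N + n) (by omega)) (not_lt.2 (le_of_lt hn))
      rw [ae_iff] at h3
      have e3 : {ω | ¬ ω ∉ ⋂ N, B k N} = ⋂ N, B k N := by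
        ext ω
        exact not_not
      rwa [e3] at h3
    rwa [h2] at h1
  set e : ℕ → ℕ → Ω → ℝ := fun k N => P[(B k N).indicator (fun _ => (1:ℝ)) | MeasurableSpace.invariants T]
    with he
  have hind : ∀ k N, Integrable ((B k N).indicator (fun _ => (1:ℝ))) P := fun k N =>
    (integrable_const (1:ℝ)).indicator (hBm k N)
  have hsmall : ∀ k l : ℕ, ∀ᵐ ω ∂P, ∃ N, e k N ω < 1 / ((l:ℝ) + 1) := by
    intro k l
    rw [ae_iff]
    set D : Set Ω := {ω | ¬ ∃ N, e k N ω < 1 / ((l:ℝ) + 1)} with hD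
    have hδ : (0:ℝ) < 1 / ((l:ℝ) + 1) := by positivity
    have hDle : ∀ N, P.real D ≤ P.real (B k N) * (l + 1) := by
      intro N
      have hnn : 0 ≤ᵐ[P] e k N := by
        apply condExp_nonneg
        filter_upwards with ω
        exact Set.indicator_nonneg (fun _ _ => zero_le_one) ω
      have h1 := mul_meas_ge_le_integral_of_nonneg hnn integrable_condExp (1 / ((l:ℝ) + 1))
      have h2 : ∫ ω, e k N ω ∂P = P.real (B k N) := by
        simp only [he]
        rw [integral_condExp hle, integral_indicator_const (1:ℝ) (hBm k N), smul_eq_mul, mul_one]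
      rw [h2] at h1
      have h3 : P.real D ≤ P.real {ω | 1 / ((l:ℝ) + 1) ≤ e k N ω} := by
        refine measureReal_mono ?_ (measure_ne_top _ _)
        intro ω hω
        have : ¬ ∃ N, e k N ω < 1 / ((l:ℝ) + 1) := hω
        rw [not_exists] at this
        exact not_lt.1 (this N)
      have h4 : P.real {ω | 1 / ((l:ℝ) + 1) ≤ e k N ω} ≤ P.real (B k N) * (l + 1) := by
        have h5 : (0:ℝ) < l + 1 := by positivity
        rw [one_div_mul_eq_div, div_le_iff₀ h5] at h1
        exact h1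
      exact h3.trans h4
    have hlim2 : Tendsto (fun N => P.real (B k N) * (l + 1)) atTop (𝓝 0) := by
      have h1 : Tendsto (fun N => P.real (B k N)) atTop (𝓝 0) := by
        have := (ENNReal.tendsto_toReal ENNReal.zero_ne_top).comp (hB0 k)
        rw [ENNReal.toReal_zero] at this
        exact this
      simpa using h1.mul_const ((l:ℝ) + 1)
    have h0 : P.real D ≤ 0 := ge_of_tendsto' hlim2 hDle
    have h1 : P.real D = 0 := le_antisymm h0 measureReal_nonneg
    exact (measureReal_eq_zero_iff).1 h1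
  have hbirk : ∀ᵐ ω ∂P, ∀ k N, Tendsto (fun n : ℕ => S T ((B k N).indicator (fun _ => (1:ℝ))) n ω / n)
      atTop (𝓝 (e k N ω)) := by
    rw [ae_all_iff]
    intro k
    rw [ae_all_iff]
    intro N
    exact pointwise hT (hind k N)
  have hsm : ∀ᵐ ω ∂P, ∀ k l : ℕ, ∃ N, e k N ω < 1 / ((l:ℝ) + 1) := by
    rw [ae_all_iff]
    intro k
    rw [ae_all_iff]
    intro l
    exact hsmall k l
  filter_upwards [hbirk, hsm] with ω h1 h2
  rw [Metric.tendsto_atTop]
  intro ε hε
  obtain ⟨k, hk⟩ := exists_nat_one_div_lt (show 0 < ε / 3 by positivity)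
  have hK0 : 0 ≤ K := (abs_nonneg _).trans (hK 0 ω)
  obtain ⟨l, hl⟩ := exists_nat_one_div_lt (show 0 < ε / (3 * (K + 1)) by positivity)
  obtain ⟨N, hN⟩ := h2 k l
  have h3 := (h1 k N).eventually (gt_mem_nhds hN)
  obtain ⟨M, hM⟩ := (eventually_atTop.1 (h3.and (eventually_ge_atTop (N + 1))))
  refine ⟨M, fun n hn => ?_⟩
  obtain ⟨h4, h5⟩ := hM n hn
  have hn0 : (0:ℝ) < n := by
    have : 0 < n := by omega
    exact_mod_cast this
  have hbound : S T (fun ω => |h n ω|) n ω ≤
      n * (1 / ((k:ℝ) + 1)) + K * S T ((B k N).indicator (fun _ => (1:ℝ))) n ω := by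
    unfold S
    have e1 : (n:ℝ) * (1 / ((k:ℝ) + 1)) = ∑ i ∈ Finset.range n, 1 / ((k:ℝ) + 1) := by
      rw [Finset.sum_const, Finset.card_range, nsmul_eq_mul]
    rw [e1, Finset.mul_sum, ← Finset.sum_add_distrib]
    apply Finset.sum_le_sum
    intro i _
    by_cases hb : T^[i] ω ∈ B k N
    · rw [Set.indicator_of_mem hb, mul_one]
      have := hK n (T^[i] ω)
      have : (0:ℝ) < 1 / ((k:ℝ) + 1) := by positivity
      linarith
    · rw [Set.indicator_of_notMem hb, mul_zero, add_zero]
      by_contra hc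
      apply hb
      rw [Set.mem_iUnion]
      refine ⟨n - N, ?_⟩
      have : N + (n - N) = n := by omega
      show 1 / ((k:ℝ) + 1) < |h (N + (n - N)) (T^[i] ω)|
      rw [this]
      exact not_le.1 hc
  have hnn : 0 ≤ S T (fun ω => |h n ω|) n ω := Finset.sum_nonneg fun i _ => abs_nonneg _
  rw [Real.dist_eq, sub_zero, abs_of_nonneg (by positivity), div_lt_iff₀ hn0]
  rw [div_lt_iff₀ hn0] at h4
  have h6 : K * S T ((B k N).indicator (fun _ => (1:ℝ))) n ω ≤ K * (1 / ((l:ℝ) + 1) * n) :=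
    mul_le_mul_of_nonneg_left h4.le hK0
  have h7 : K * (1 / ((l:ℝ) + 1)) ≤ ε / 3 := by
    calc K * (1 / ((l:ℝ) + 1)) ≤ (K + 1) * (ε / (3 * (K + 1))) := by
          apply mul_le_mul (by linarith) hl.le (by positivity) (by positivity)
      _ = ε / 3 := by field_simp
  nlinarith

end Pool.Agent.Q68.PM
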