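import Pool.Agent.Q68.PM.Scal

set_option autoImplicit false

/-!
# The law of large permanents for functions bounded away from zero and infinity
-/

open MeasureTheory Filter Topology Real ProbabilityTheory

namespace Pool.Agent.Q68.PM

open _root_.Q68.PET

variable {Ω : Type*} [MeasurableSpace Ω]

/-- Every pair of scaling functions can be replaced by a pair for which the scaled function is
bounded between `(c / C)²` and `(C / c)²` and has conditional expectation one. -/
theorem good_pair {P : Measure Ω} [IsProbabilityMeasure P] {T₁ T₂ : Ω → Ω} (h : Act P T₁ T₂)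
    {f : Ω → ℝ} (hfm : Measurable f) {c C : ℝ} (hc : 0 < c) (h1 : ∀ ω, c ≤ f ω) (h2 : ∀ ω, f ω ≤ C)
    {g₁ g₂ : Ω → ℝ} (hg1 : InG P (MeasurableSpace.invariants T₁) g₁)
    (hg2 : InG P (MeasurableSpace.invariants T₂) g₂)
    (hi : Integrable (fun ω => g₁ ω * f ω * g₂ ω) P) :
    ∃ x y : Ω → ℝ, InG P (MeasurableSpace.invariants T₁) x ∧
      InG P (MeasurableSpace.invariants T₂) y ∧ (∀ ω, (c / C) ^ 2 ≤ x ω * f ω * y ω) ∧
      (∀ ω, x ω * f ω * y ω ≤ (C / c) ^ 2) ∧
      (∀ᵐ ω ∂P, (P[fun ω => x ω * f ω * y ω | MeasurableSpace.invariants T₂]) ω = 1) ∧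
      ∫ ω, x ω * f ω * y ω ∂P = 1 ∧ vl P f x y ≤ vl P f g₁ g₂ := by
  obtain ⟨ω₀⟩ : Nonempty Ω := by
    by_contra hc
    rw [not_nonempty_iff] at hc
    have h3 : P Set.univ = 0 := by
      rw [Set.eq_empty_of_isEmpty (Set.univ : Set Ω), measure_empty]
    rw [measure_univ] at h3
    exact one_ne_zero h3
  have hcC : c ≤ C := (h1 ω₀).trans (h2 ω₀)
  have hC : 0 < C := hc.trans_le hcC
  have hg2i : Integrable g₂ P := InG.int2 h hg1 hg2 hc h1 hi
  obtain ⟨x, hxG, hx1, hx2, -, hxi, hx3, hxv⟩ := step h hfm hc h1 h2 hg1 hg2 hg2i hi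
  set m := ∫ ω, g₂ ω ∂P with hm
  have hm0 : 0 < m := int_pos hg2i hg2.pos
  have hxint : Integrable x P := bdd_int (inv_meas hxG.meas) hx1 hx2
  have hcomm : ∀ a b : Ω → ℝ, (fun ω => a ω * f ω * b ω) = fun ω => b ω * f ω * a ω := by
    intro a b
    funext ω
    ring
  obtain ⟨y, hyG, hy1, hy2, hy3, hyi, hy4, hyv⟩ := step h.swap hfm hc h1 h2 hg2 hxG hxint
    (by rw [hcomm]; exact hxi)
  set m1 := ∫ ω, x ω ∂P with hm1
  have hm10 : 0 < m1 := int_pos hxint hxG.pos
  have hm1a : 1 / (C * m) ≤ m1 := by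
    have := integral_mono (integrable_const (1 / (C * m))) hxint hx1
    simpa using this
  have hm1b : m1 ≤ 1 / (c * m) := by
    have := integral_mono hxint (integrable_const (1 / (c * m))) hx2
    simpa using this
  have hmm1 : 1 / C ≤ m * m1 := by
    rw [div_le_iff₀ (by positivity)] at hm1a
    rw [div_le_iff₀ hC]
    linarith
  have hmm2 : m * m1 ≤ 1 / c := by
    rw [le_div_iff₀ (by positivity)] at hm1b
    rw [le_div_iff₀ hc]
    linarith
  refine ⟨x, y, hxG, hyG, ?_, ?_, ?_, ?_, ?_⟩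
  · intro ω
    have e1 : (c / C) ^ 2 ≤ 1 / (C * m) * c * (1 / (C * m1)) := by
      have e2 : 1 / (C * m) * c * (1 / (C * m1)) = c / (C ^ 2 * (m * m1)) := by
        field_simp
      rw [e2, div_pow, div_le_div_iff₀ (by positivity) (by positivity)]
      have : C ^ 2 * (m * m1) ≤ C ^ 2 * (1 / c) := mul_le_mul_of_nonneg_left hmm2 (by positivity)
      calc c ^ 2 * (C ^ 2 * (m * m1)) ≤ c ^ 2 * (C ^ 2 * (1 / c)) :=
            mul_le_mul_of_nonneg_left this (by positivity)
        _ = c * C ^ 2 := by field_simp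
    refine e1.trans ?_
    have h3 := hx1 ω
    have h4 := hy1 ω
    have h5 := h1 ω
    have h6 := hxG.pos ω
    apply mul_le_mul _ h4 (by positivity) (by nlinarith [hc.trans_le h5])
    exact mul_le_mul h3 h5 hc.le h6.le
  · intro ω
    have e1 : 1 / (c * m) * C * (1 / (c * m1)) ≤ (C / c) ^ 2 := by
      have e2 : 1 / (c * m) * C * (1 / (c * m1)) = C / (c ^ 2 * (m * m1)) := by
        field_simp
      rw [e2, div_pow, div_le_div_iff₀ (by positivity) (by positivity)]
      have : c ^ 2 * (1 / C) ≤ c ^ 2 * (m * m1) := mul_le_mul_of_nonneg_left hmm1 (by positivity)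
      calc C * c ^ 2 = C ^ 2 * (c ^ 2 * (1 / C)) := by field_simp
        _ ≤ C ^ 2 * (c ^ 2 * (m * m1)) := mul_le_mul_of_nonneg_left this (by positivity)
    refine le_trans ?_ e1
    have h3 := hx2 ω
    have h4 := hy2 ω
    have h5 := h2 ω
    have h6 := hxG.pos ω
    have h7 := hyG.pos ω
    have h8 := hc.trans_le (h1 ω)
    apply mul_le_mul _ h4 h7.le (by positivity)
    exact mul_le_mul h3 h5 h8.le (by positivity)
  · have hle := MeasurableSpace.invariants_le T₂
    have hfx : Integrable (fun ω => f ω * x ω) P := by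
      apply Integrable.mono' (hxint.const_mul C) (hfm.mul (inv_meas hxG.meas)).aestronglyMeasurable
      filter_upwards with ω
      have hx0 := hxG.pos ω
      have hf0 := hc.trans_le (h1 ω)
      show |f ω * x ω| ≤ C * x ω
      rw [abs_of_pos (mul_pos hf0 hx0)]
      exact mul_le_mul_of_nonneg_right (h2 ω) hx0.le
    have e : (fun ω => x ω * f ω * y ω) = y * fun ω => f ω * x ω := by
      funext ω
      show x ω * f ω * y ω = y ω * (f ω * x ω)
      ring
    have h3 := condExp_mul_of_stronglyMeasurable_left (μ := P) (m := MeasurableSpace.invariants T₂)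
      hyG.meas.stronglyMeasurable (by rw [← e, hcomm]; exact hyi) hfx
    rw [e]
    filter_upwards [h3, hy3] with ω h4 h5
    rw [h4, Pi.mul_apply]
    exact h5
  · rw [hcomm]
    exact hy4
  · refine le_trans (le_of_eq ?_) (hyv.trans ((le_of_eq ?_).trans hxv))
    · unfold vl
      rw [hcomm x y]
      ring
    · unfold vl
      rw [hcomm g₂ x]
      ring

/-- Near-optimal pairs are nearly doubly stochastic. -/
theorem near_stat {P : Measure Ω} [IsProbabilityMeasure P] {T₁ T₂ : Ω → Ω}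
    {f x y : Ω → ℝ} (hfm : Measurable f) {a b : ℝ} (ha : 0 < a)
    (hx : InG P (MeasurableSpace.invariants T₁) x) (hy : InG P (MeasurableSpace.invariants T₂) y)
    (h1 : ∀ ω, a ≤ x ω * f ω * y ω) (h2 : ∀ ω, x ω * f ω * y ω ≤ b)
    (h3 : ∫ ω, x ω * f ω * y ω ∂P = 1) {s ε : ℝ}
    (hs : ∀ x' y', InG P (MeasurableSpace.invariants T₁) x' →
      InG P (MeasurableSpace.invariants T₂) y' → Integrable (fun ω => x' ω * f ω * y' ω) P →
      s ≤ vl P f x' y') (hv : vl P f x y ≤ s + ε) :
    ∃ θ : Ω → ℝ, Measurable[MeasurableSpace.invariants T₁] θ ∧ (∀ ω, 0 ≤ θ ω) ∧ (∀ ω, θ ω ≤ b) ∧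
      (∀ᵐ ω ∂P, (P[fun ω => x ω * f ω * y ω | MeasurableSpace.invariants T₁]) ω = θ ω) ∧
      ∀ η : ℝ, 0 < η → ∫ ω, |θ ω - 1| ∂P ≤ η + 4 * b * ε / η := by
  have hle := MeasurableSpace.invariants_le T₁
  obtain ⟨ω₀⟩ : Nonempty Ω := by
    by_contra hc
    rw [not_nonempty_iff] at hc
    have h3 : P Set.univ = 0 := by
      rw [Set.eq_empty_of_isEmpty (Set.univ : Set Ω), measure_empty]
    rw [measure_univ] at h3
    exact one_ne_zero h3
  have hab : a ≤ b := (h1 ω₀).trans (h2 ω₀)
  have hb : 0 < b := ha.trans_le hab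
  have hFm : Measurable fun ω => x ω * f ω * y ω :=
    ((inv_meas hx.meas).mul hfm).mul (inv_meas hy.meas)
  have hFi : Integrable (fun ω => x ω * f ω * y ω) P := bdd_int hFm h1 h2
  set u := P[fun ω => x ω * f ω * y ω | MeasurableSpace.invariants T₁] with hu
  have hu1 : ∀ᵐ ω ∂P, a ≤ u ω := by
    have h4 := condExp_mono (m := MeasurableSpace.invariants T₁) (μ := P) (integrable_const a) hFi
      (Eventually.of_forall h1)
    rw [condExp_const hle] at h4
    exact h4
  have hu2 : ∀ᵐ ω ∂P, u ω ≤ b := by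
    have h4 := condExp_mono (m := MeasurableSpace.invariants T₁) (μ := P) hFi (integrable_const b)
      (Eventually.of_forall h2)
    rw [condExp_const hle] at h4
    exact h4
  set θ : Ω → ℝ := fun ω => max a (min (u ω) b) with hθ
  have hum : Measurable[MeasurableSpace.invariants T₁] u := stronglyMeasurable_condExp.measurable
  have hθm : Measurable[MeasurableSpace.invariants T₁] θ := by
    have hg : Measurable (fun t : ℝ => max a (min t b)) := by fun_prop
    exact hg.comp hum
  have hθ1 : ∀ ω, a ≤ θ ω := fun ω => le_max_left _ _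
  have hθ2 : ∀ ω, θ ω ≤ b := fun ω => max_le hab (min_le_right _ _)
  have hθ0 : ∀ ω, 0 < θ ω := fun ω => ha.trans_le (hθ1 ω)
  have huθ : ∀ᵐ ω ∂P, u ω = θ ω := by
    filter_upwards [hu1, hu2] with ω h4 h5
    simp only [hθ]
    rw [min_eq_left h5, max_eq_right h4]
  refine ⟨θ, hθm, fun ω => (hθ0 ω).le, hθ2, huθ, ?_⟩
  have hθmm := inv_meas hθm
  have hθi : Integrable θ P := bdd_int hθmm hθ1 hθ2
  have hθli : Integrable (fun ω => Real.log (θ ω)) P := bdd_logint hθmm ha hθ1 hθ2
  have hθint : ∫ ω, θ ω ∂P = 1 := by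
    rw [← integral_congr_ae huθ, hu, integral_condExp hle, h3]
  -- the improved pair
  set x' : Ω → ℝ := fun ω => (1 / θ ω) * x ω with hx'
  have hinvm : Measurable[MeasurableSpace.invariants T₁] fun ω => 1 / θ ω := by
    have hg : Measurable (fun t : ℝ => 1 / t) := by fun_prop
    exact hg.comp hθm
  have hx'm : Measurable[MeasurableSpace.invariants T₁] x' := hinvm.mul hx.meas
  have hlogx' : (fun ω => Real.log (x' ω)) = fun ω => Real.log (x ω) - Real.log (θ ω) := by
    funext ω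
    simp only [hx']
    rw [Real.log_mul (div_pos one_pos (hθ0 ω)).ne' (hx.pos ω).ne', one_div, Real.log_inv]
    ring
  have hx'G : InG P (MeasurableSpace.invariants T₁) x' :=
    ⟨hx'm, fun ω => mul_pos (div_pos one_pos (hθ0 ω)) (hx.pos ω), by
      rw [hlogx']
      exact hx.logi.sub hθli⟩
  have e : (fun ω => x' ω * f ω * y ω) = (fun ω => 1 / θ ω) * fun ω => x ω * f ω * y ω := by
    funext ω
    show 1 / θ ω * x ω * f ω * y ω = 1 / θ ω * (x ω * f ω * y ω)
    ring
  have hi' : Integrable (fun ω => x' ω * f ω * y ω) P := by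
    apply Integrable.mono' (hFi.const_mul (1 / a))
      (((inv_meas hx'm).mul hfm).mul (inv_meas hy.meas)).aestronglyMeasurable
    filter_upwards with ω
    have h6 : 0 < x ω * f ω * y ω := ha.trans_le (h1 ω)
    have h7 : x' ω * f ω * y ω = 1 / θ ω * (x ω * f ω * y ω) := congrFun e ω
    show |x' ω * f ω * y ω| ≤ 1 / a * (x ω * f ω * y ω)
    rw [h7, abs_of_pos (mul_pos (div_pos one_pos (hθ0 ω)) h6)]
    exact mul_le_mul_of_nonneg_right (one_div_le_one_div_of_le ha (hθ1 ω)) h6.le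
  have hint1 : ∫ ω, x' ω * f ω * y ω ∂P = 1 := by
    rw [← integral_condExp hle, e]
    have h4 := condExp_mul_of_stronglyMeasurable_left (μ := P) (m := MeasurableSpace.invariants T₁)
      hinvm.stronglyMeasurable (by rw [← e]; exact hi') hFi
    have h5 : ∀ᵐ ω ∂P, (P[(fun ω => 1 / θ ω) * fun ω => x ω * f ω * y ω |
        MeasurableSpace.invariants T₁]) ω = 1 := by
      filter_upwards [h4, huθ] with ω h6 h7
      rw [h6, Pi.mul_apply, ← hu, h7]
      exact one_div_mul_cancel (hθ0 ω).ne'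
    rw [integral_congr_ae h5]
    simp
  have hlow := hs x' y hx'G hy hi'
  have hlogθ : -ε ≤ ∫ ω, Real.log (θ ω) ∂P := by
    unfold vl at hlow hv
    rw [hint1, Real.log_one, hlogx', integral_sub hx.logi hθli] at hlow
    rw [h3, Real.log_one] at hv
    linarith
  -- the quadratic inequality
  have hq : ∀ ω, (θ ω - 1) ^ 2 ≤ 4 * b * (θ ω - 1 - Real.log (θ ω)) + 0 := by
    intro ω
    have hb1 : 1 ≤ b := by
      have h4 := integral_mono hθi (integrable_const b) hθ2
      rw [hθint] at h4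
      simpa using h4
    set t := √(θ ω) with ht
    have ht0 : 0 < t := Real.sqrt_pos.2 (hθ0 ω)
    have htt : t ^ 2 = θ ω := Real.sq_sqrt (hθ0 ω).le
    have hlogt : Real.log (θ ω) ≤ 2 * (t - 1) := by
      rw [← htt, Real.log_pow]
      have := Real.log_le_sub_one_of_pos ht0
      push_cast
      linarith
    have h4 : (t - 1) ^ 2 ≤ θ ω - 1 - Real.log (θ ω) := by
      rw [← htt] at hlogt ⊢
      nlinarith
    have h5 : (t + 1) ^ 2 ≤ 4 * b := by
      have h6 : t ^ 2 ≤ b := by rw [htt]; exact hθ2 ω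
      have h7 : t ≤ b := by nlinarith
      nlinarith
    rw [add_zero, ← htt]
    calc (t ^ 2 - 1) ^ 2 = (t + 1) ^ 2 * (t - 1) ^ 2 := by ring
      _ ≤ 4 * b * (t ^ 2 - 1 - Real.log (t ^ 2)) := by
          rw [htt]
          exact mul_le_mul h5 h4 (by positivity) (by positivity)
  have hsq : ∫ ω, (θ ω - 1) ^ 2 ∂P ≤ 4 * b * ε := by
    have hsqi : Integrable (fun ω => (θ ω - 1) ^ 2) P := by
      apply bdd_int (a := 0) (b := (b + 1) ^ 2) ((hθmm.sub_const 1).pow_const 2)
      · intro ω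
        positivity
      · intro ω
        have := (hθ0 ω).le
        have := hθ2 ω
        apply sq_le_sq'
        · linarith
        · linarith
    have hri : Integrable (fun ω => θ ω - 1 - Real.log (θ ω)) P :=
      (hθi.sub (integrable_const 1)).sub hθli
    have h4 := integral_mono hsqi ((hri.const_mul (4 * b)).add (integrable_const 0)) hq
    have h5 : ∫ ω, (4 * b * (θ ω - 1 - Real.log (θ ω)) + 0) ∂P =
        4 * b * (- ∫ ω, Real.log (θ ω) ∂P) := by
      simp only [add_zero]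
      rw [integral_const_mul]
      have e1 : ∫ ω, (θ ω - 1 - Real.log (θ ω)) ∂P =
          ∫ ω, (θ ω - 1) ∂P - ∫ ω, Real.log (θ ω) ∂P :=
        integral_sub (hθi.sub (integrable_const 1)) hθli
      have e2 : ∫ ω, (θ ω - 1) ∂P = ∫ ω, θ ω ∂P - ∫ _ω, (1:ℝ) ∂P :=
        integral_sub hθi (integrable_const 1)
      rw [e1, e2, hθint]
      simp
    have h6 : ∫ ω, (θ ω - 1) ^ 2 ∂P ≤ 4 * b * (- ∫ ω, Real.log (θ ω) ∂P) := h5 ▸ h4
    refine h6.trans ?_
    apply mul_le_mul_of_nonneg_left _ (by positivity)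
    linarith
  intro η hη
  have hsqi : Integrable (fun ω => (θ ω - 1) ^ 2) P := by
    apply bdd_int (a := 0) (b := (b + 1) ^ 2) ((hθmm.sub_const 1).pow_const 2)
    · intro ω
      positivity
    · intro ω
      have := (hθ0 ω).le
      have := hθ2 ω
      apply sq_le_sq'
      · linarith
      · linarith
  have habsi : Integrable (fun ω => |θ ω - 1|) P := (hθi.sub (integrable_const 1)).abs
  have h4 : ∀ ω, |θ ω - 1| ≤ η + (θ ω - 1) ^ 2 / η := by
    intro ω
    rw [← sq_abs]
    set t := |θ ω - 1|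
    have ht : 0 ≤ t := abs_nonneg _
    rcases le_total t η with h5 | h5
    · have : 0 ≤ t ^ 2 / η := by positivity
      linarith
    · have : t ≤ t ^ 2 / η := by
        rw [le_div_iff₀ hη]
        nlinarith
      linarith
  have h5 := integral_mono habsi ((integrable_const η).add (hsqi.div_const η)) h4
  have h6 : ∫ ω, (η + (θ ω - 1) ^ 2 / η) ∂P = η + (∫ ω, (θ ω - 1) ^ 2 ∂P) / η := by
    have e1 : ∫ ω, (η + (θ ω - 1) ^ 2 / η) ∂P = ∫ _ω, η ∂P + ∫ ω, (θ ω - 1) ^ 2 / η ∂P :=
      integral_add (integrable_const η) (hsqi.div_const η)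
    rw [e1, integral_div]
    simp
  have h7 : ∫ ω, |θ ω - 1| ∂P ≤ η + (∫ ω, (θ ω - 1) ^ 2 ∂P) / η := h6 ▸ h5
  refine h7.trans ?_
  have h8 : (∫ ω, (θ ω - 1) ^ 2 ∂P) / η ≤ 4 * b * ε / η :=
    div_le_div_of_nonneg_right hsq hη.le
  linarith

end Pool.Agent.Q68.PM
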