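import Pool.Agent.Q68.PM.Fin

set_option autoImplicit false

/-!
# The law of large permanents
-/

open MeasureTheory Filter Topology Real ProbabilityTheory

namespace Pool.Agent.Q68.PM

open _root_.Q68.PET

variable {Ω : Type*} [MeasurableSpace Ω]

theorem per_scale {n : ℕ} (B : Fin n → Fin n → ℝ) (r s : Fin n → ℝ) :
    per (fun i j => r j * B i j * s i) = (∏ j, r j) * (∏ i, s i) * per B := by
  unfold per
  rw [Finset.mul_sum]
  apply Finset.sum_congr rfl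
  intro σ _
  rw [Finset.prod_mul_distrib, Finset.prod_mul_distrib, Equiv.prod_comp σ r]
  ring

/-- The relation between the permanents of `f` and of the scaled function. -/
theorem LL_scale {P : Measure Ω} {T₁ T₂ : Ω → Ω} (h : Act P T₁ T₂) {f x y : Ω → ℝ}
    (hx : InG P (MeasurableSpace.invariants T₁) x) (hy : InG P (MeasurableSpace.invariants T₂) y)
    (hf : ∀ ω, 0 < f ω) (n : ℕ) (ω : Ω) :
    LL T₁ T₂ (fun ω => x ω * f ω * y ω) n ω =
      S T₂ (fun ω => Real.log (x ω)) n ω / n + S T₁ (fun ω => Real.log (y ω)) n ω / n +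
        LL T₁ T₂ f n ω := by
  have e : mat T₁ T₂ (fun ω => x ω * f ω * y ω) n ω =
      fun i j : Fin n => x (T₂^[(j:ℕ)] ω) * mat T₁ T₂ f n ω i j * y (T₁^[(i:ℕ)] ω) := by
    funext i j
    have e1 : x (T₁^[(i:ℕ)] (T₂^[(j:ℕ)] ω)) = x (T₂^[(j:ℕ)] ω) := inv_iter hx.meas _ _
    have e2 : y (T₁^[(i:ℕ)] (T₂^[(j:ℕ)] ω)) = y (T₁^[(i:ℕ)] ω) := by
      rw [h.comm_iter2]
      exact inv_iter hy.meas _ _
    show x (T₁^[(i:ℕ)] (T₂^[(j:ℕ)] ω)) * f (T₁^[(i:ℕ)] (T₂^[(j:ℕ)] ω)) *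
      y (T₁^[(i:ℕ)] (T₂^[(j:ℕ)] ω)) =
      x (T₂^[(j:ℕ)] ω) * f (T₁^[(i:ℕ)] (T₂^[(j:ℕ)] ω)) * y (T₁^[(i:ℕ)] ω)
    rw [e1, e2]
  have hper : 0 < per (mat T₁ T₂ f n ω) := per_pos fun i j => hf _
  have hfac : (0:ℝ) < n.factorial := by exact_mod_cast n.factorial_pos
  have hx1 : 0 < ∏ j : Fin n, x (T₂^[(j:ℕ)] ω) := Finset.prod_pos fun j _ => hx.pos _
  have hy1 : 0 < ∏ i : Fin n, y (T₁^[(i:ℕ)] ω) := Finset.prod_pos fun i _ => hy.pos _
  unfold LL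
  rw [e, per_scale, mul_div_assoc, Real.log_mul (mul_pos hx1 hy1).ne' (div_pos hper hfac).ne',
    Real.log_mul hx1.ne' hy1.ne', Real.log_prod (fun j _ => (hx.pos _).ne'),
    Real.log_prod (fun j _ => (hy.pos _).ne')]
  unfold S
  rw [Finset.sum_range, Finset.sum_range]
  ring

/-- The set of the logarithms of the values of the functional. -/
def vals (P : Measure Ω) (T₁ T₂ : Ω → Ω) (f : Ω → ℝ) : Set ℝ :=
  {v | ∃ g₁ g₂ : Ω → ℝ, InG P (MeasurableSpace.invariants T₁) g₁ ∧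
    InG P (MeasurableSpace.invariants T₂) g₂ ∧ Integrable (fun ω => g₁ ω * f ω * g₂ ω) P ∧
    vl P f g₁ g₂ = v}

theorem vals_nonempty {P : Measure Ω} [IsProbabilityMeasure P] {T₁ T₂ : Ω → Ω}
    {f : Ω → ℝ} (hf : Integrable f P) : (vals P T₁ T₂ f).Nonempty := by
  refine ⟨_, fun _ => 1, fun _ => 1, ⟨measurable_const, fun _ => one_pos, ?_⟩,
    ⟨measurable_const, fun _ => one_pos, ?_⟩, ?_, rfl⟩
  · exact integrable_const _
  · exact integrable_const _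
  · simpa using hf

theorem vals_bdd {P : Measure Ω} [IsProbabilityMeasure P] {T₁ T₂ : Ω → Ω}
    {f : Ω → ℝ} {c : ℝ} (hc : 0 < c) (h1 : ∀ ω, c ≤ f ω) :
    BddBelow (vals P T₁ T₂ f) := by
  refine ⟨Real.log c, ?_⟩
  rintro _ ⟨g₁, g₂, hg1, hg2, hi, rfl⟩
  have hm1 := inv_meas hg1.meas
  have hm2 := inv_meas hg2.meas
  have hgg : Integrable (fun ω => g₁ ω * g₂ ω) P := by
    apply Integrable.mono' (hi.const_mul (1 / c)) (hm1.mul hm2).aestronglyMeasurable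
    filter_upwards with ω
    have hx0 := hg1.pos ω
    have hy0 := hg2.pos ω
    show |g₁ ω * g₂ ω| ≤ 1 / c * (g₁ ω * f ω * g₂ ω)
    rw [abs_of_pos (mul_pos hx0 hy0), one_div, inv_mul_eq_div, le_div_iff₀ hc]
    have := mul_le_mul_of_nonneg_left (h1 ω) (mul_pos hx0 hy0).le
    linarith
  have hpos : ∀ ω, 0 < g₁ ω * g₂ ω := fun ω => mul_pos (hg1.pos ω) (hg2.pos ω)
  have hsplit : (fun ω => Real.log (g₁ ω * g₂ ω)) =
      fun ω => Real.log (g₁ ω) + Real.log (g₂ ω) := by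
    funext ω
    exact Real.log_mul (hg1.pos ω).ne' (hg2.pos ω).ne'
  have h3 := log_int hgg hpos (by
    rw [hsplit]
    exact hg1.logi.add hg2.logi)
  rw [hsplit, integral_add hg1.logi hg2.logi] at h3
  have h4 : c * ∫ ω, g₁ ω * g₂ ω ∂P ≤ ∫ ω, g₁ ω * f ω * g₂ ω ∂P := by
    rw [← integral_const_mul]
    apply integral_mono (hgg.const_mul c) hi
    intro ω
    have := mul_le_mul_of_nonneg_left (h1 ω) (hpos ω).le
    show c * (g₁ ω * g₂ ω) ≤ g₁ ω * f ω * g₂ ω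
    linarith
  have h5 := int_pos hgg hpos
  have h6 := Real.log_le_log (mul_pos hc h5) h4
  rw [Real.log_mul hc.ne' h5.ne'] at h6
  unfold vl
  linarith

/-- The law of large permanents for bounded functions. -/
theorem law {P : Measure Ω} [IsProbabilityMeasure P] {T₁ T₂ : Ω → Ω} (h : Act P T₁ T₂)
    {f : Ω → ℝ} (hfm : Measurable f) {c C : ℝ} (hc : 0 < c) (h1 : ∀ ω, c ≤ f ω) (h2 : ∀ ω, f ω ≤ C) :
    ∀ᵐ ω ∂P, Tendsto (fun n : ℕ => LL T₁ T₂ f n ω) atTop (𝓝 (sInf (vals P T₁ T₂ f))) := by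
  obtain ⟨ω₀⟩ : Nonempty Ω := by
    by_contra hc
    rw [not_nonempty_iff] at hc
    have h3 : P Set.univ = 0 := by
      rw [Set.eq_empty_of_isEmpty (Set.univ : Set Ω), measure_empty]
    rw [measure_univ] at h3
    exact one_ne_zero h3
  have hcC : c ≤ C := (h1 ω₀).trans (h2 ω₀)
  have hC : 0 < C := hc.trans_le hcC
  set s := sInf (vals P T₁ T₂ f) with hs
  have hf0 : ∀ ω, 0 < f ω := fun ω => hc.trans_le (h1 ω)
  have hne := vals_nonempty (P := P) (T₁ := T₁) (T₂ := T₂) (bdd_int hfm h1 h2)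
  have hbdd := vals_bdd (P := P) (T₁ := T₁) (T₂ := T₂) hc h1
  have hsle : ∀ x' y', InG P (MeasurableSpace.invariants T₁) x' →
      InG P (MeasurableSpace.invariants T₂) y' → Integrable (fun ω => x' ω * f ω * y' ω) P →
      s ≤ vl P f x' y' := fun x' y' hx' hy' hi' => csInf_le hbdd ⟨x', y', hx', hy', hi', rfl⟩
  set a := (c / C) ^ 2 with ha
  set b := (C / c) ^ 2 with hb
  have ha0 : 0 < a := by positivity
  have hb0 : 0 < b := by positivity
  have hpair : ∀ k : ℕ, ∃ x y : Ω → ℝ, InG P (MeasurableSpace.invariants T₁) x ∧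
      InG P (MeasurableSpace.invariants T₂) y ∧ (∀ ω, a ≤ x ω * f ω * y ω) ∧
      (∀ ω, x ω * f ω * y ω ≤ b) ∧
      (∀ᵐ ω ∂P, (P[fun ω => x ω * f ω * y ω | MeasurableSpace.invariants T₂]) ω = 1) ∧
      ∫ ω, x ω * f ω * y ω ∂P = 1 ∧ vl P f x y ≤ s + 1 / ((k:ℝ) + 1) := by
    intro k
    obtain ⟨v, ⟨g₁, g₂, hg1, hg2, hi, rfl⟩, hv⟩ := exists_lt_of_csInf_lt hne
      (show s < s + 1 / ((k:ℝ) + 1) by
        have : (0:ℝ) < 1 / ((k:ℝ) + 1) := by positivity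
        linarith)
    obtain ⟨x, y, hx, hy, p1, p2, p3, p4, p5⟩ := good_pair h hfm hc h1 h2 hg1 hg2 hi
    exact ⟨x, y, hx, hy, p1, p2, p3, p4, p5.trans hv.le⟩
  choose x y hx hy p1 p2 p3 p4 p5 using hpair
  choose θ q1 q2 q3 q4 q5 using fun k => near_stat hfm ha0 (hx k) (hy k) (p1 k) (p2 k) (p4 k) hsle (p5 k)
  have hcore : ∀ᵐ ω ∂P, ∀ k, ∀ ε : ℝ, 0 < ε → ∀ᶠ n : ℕ in atTop,
      -(Real.log (b / a) * ∫ ω, |θ k ω - 1| ∂P) - ε ≤
        LL T₁ T₂ (fun ω => x k ω * f ω * y k ω) n ω ∧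
      LL T₁ T₂ (fun ω => x k ω * f ω * y k ω) n ω ≤ ε := by
    rw [ae_all_iff]
    intro k
    exact core h (((inv_meas (hx k).meas).mul hfm).mul (inv_meas (hy k).meas)) ha0 (p1 k) (p2 k)
      (p3 k) (q1 k) (q2 k) (q3 k) (q4 k)
  have havx : ∀ᵐ ω ∂P, ∀ k, Tendsto (fun n : ℕ => S T₂ (fun ω => Real.log (x k ω)) n ω / n) atTop
      (𝓝 (∫ ω, Real.log (x k ω) ∂P)) := by
    rw [ae_all_iff]
    intro k
    exact h.swap.avg (Real.measurable_log.comp (hx k).meas) (hx k).logi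
  have havy : ∀ᵐ ω ∂P, ∀ k, Tendsto (fun n : ℕ => S T₁ (fun ω => Real.log (y k ω)) n ω / n) atTop
      (𝓝 (∫ ω, Real.log (y k ω) ∂P)) := by
    rw [ae_all_iff]
    intro k
    exact h.avg (Real.measurable_log.comp (hy k).meas) (hy k).logi
  have hΛ : 0 ≤ Real.log (b / a) := by
    apply Real.log_nonneg
    rw [one_le_div ha0]
    exact (p1 0 ω₀).trans (p2 0 ω₀)
  filter_upwards [hcore, havx, havy] with ω e1 e2 e3
  rw [Metric.tendsto_atTop]
  intro ε hε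
  set Λ := Real.log (b / a) with hΛdef
  set η := ε / (8 * (Λ + 1)) with hη
  have hη0 : 0 < η := by positivity
  obtain ⟨k, hk⟩ := exists_nat_one_div_lt
    (show 0 < min (ε / 8) (ε * η / (8 * (Λ + 1) * (4 * b))) by positivity)
  have hk1 : 1 / ((k:ℝ) + 1) < ε / 8 := hk.trans_le (min_le_left _ _)
  have hk2 : 1 / ((k:ℝ) + 1) < ε * η / (8 * (Λ + 1) * (4 * b)) := hk.trans_le (min_le_right _ _)
  have hI : Λ * ∫ ω, |θ k ω - 1| ∂P ≤ ε / 4 := by
    have h3 := q5 k η hη0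
    have h4 : 4 * b * (1 / ((k:ℝ) + 1)) / η ≤ ε / (8 * (Λ + 1)) := by
      rw [lt_div_iff₀ (by positivity)] at hk2
      rw [div_le_div_iff₀ hη0 (by positivity)]
      linarith
    have h5 : ∫ ω, |θ k ω - 1| ∂P ≤ ε / (4 * (Λ + 1)) := by
      have : ε / (8 * (Λ + 1)) + ε / (8 * (Λ + 1)) = ε / (4 * (Λ + 1)) := by
        field_simp
        ring
      linarith
    have h6 : 0 ≤ ∫ ω, |θ k ω - 1| ∂P := integral_nonneg fun ω => abs_nonneg _
    calc Λ * ∫ ω, |θ k ω - 1| ∂P ≤ (Λ + 1) * (ε / (4 * (Λ + 1))) := by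
          apply mul_le_mul (by linarith) h5 h6 (by positivity)
      _ = ε / 4 := by field_simp
  have hvl : vl P f (x k) (y k) = - ∫ ω, Real.log (x k ω) ∂P - ∫ ω, Real.log (y k ω) ∂P := by
    unfold vl
    rw [p4 k, Real.log_one]
    ring
  have hv1 : s ≤ vl P f (x k) (y k) := hsle _ _ (hx k) (hy k)
    (bdd_int (((inv_meas (hx k).meas).mul hfm).mul (inv_meas (hy k).meas)) (p1 k) (p2 k))
  have hv2 := p5 k
  have hx3 := (e2 k).eventually (Metric.ball_mem_nhds _ (show 0 < ε / 8 by positivity))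
  have hy3 := (e3 k).eventually (Metric.ball_mem_nhds _ (show 0 < ε / 8 by positivity))
  obtain ⟨N, hN⟩ := eventually_atTop.1 ((e1 k (ε / 8) (by positivity)).and (hx3.and hy3))
  refine ⟨N, fun n hn => ?_⟩
  obtain ⟨⟨a1, a2⟩, a3, a4⟩ := hN n hn
  rw [Real.dist_eq, abs_lt] at a3 a4
  rw [LL_scale h (hx k) (hy k) hf0] at a1 a2
  rw [Real.dist_eq, abs_lt]
  rw [hvl] at hv1 hv2
  constructor
  · linarith
  · linarith

end Pool.Agent.Q68.PM
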