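import Pool.Agent.Q68.PM.Up
import Pool.Agent.H450R3.FgVdw3

set_option autoImplicit false

/-!
# A lower bound for the permanent of a positive matrix, by the inequality of Gurvits
-/

open Finset Real

namespace Pool.Agent.Q68.PM

open Pool.Agent.Helper886.HCube MvPolynomial Pool.Agent.H450R3.Fg

theorem stab_pos {n : ℕ} (A : Matrix (Fin n) (Fin n) ℝ) (h0 : ∀ i j, 0 < A i j) :
    Stab (pol A) := by
  intro z hz
  rw [pol_ev, Finset.prod_ne_zero_iff]
  intro i _ h1
  have h2 : (∑ j, ((A i j : ℝ) : ℂ) * z j).re = ∑ j, A i j * (z j).re := by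
    rw [Complex.re_sum]
    apply Finset.sum_congr rfl
    intro j _
    rw [Complex.re_ofReal_mul]
  rw [h1, Complex.zero_re] at h2
  have h3 : 0 < ∑ j, A i j * (z j).re :=
    Finset.sum_pos (fun j _ => mul_pos (h0 i j) (hz j)) ⟨i, Finset.mem_univ i⟩
  linarith

theorem log_sum_le {n : ℕ} {t : Fin n → ℝ} (ht : ∀ i, 0 < t i) (hs : ∑ i, t i = n) :
    ∑ i, Real.log (t i) ≤ 0 := by
  calc ∑ i, Real.log (t i) ≤ ∑ i, (t i - 1) :=
        sum_le_sum fun i _ => Real.log_le_sub_one_of_pos (ht i)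
    _ = 0 := by
        rw [sum_sub_distrib, hs, sum_const, card_univ, Fintype.card_fin]
        simp

theorem cap_ge {n : ℕ} {A : Fin n → Fin n → ℝ} {a b : ℝ} (ha : 0 < a) (h1 : ∀ i j, a ≤ A i j)
    (h2 : ∀ i j, A i j ≤ b) {x : Fin n → ℝ} (hx : ∀ i, 0 < x i) :
    ∑ i, Real.log (∑ j, A i j) - Real.log (b / a) * ∑ j, |∑ i, A i j / (∑ k, A i k) - 1| ≤
      ∑ i, Real.log (∑ j, A i j * x j) - ∑ j, Real.log (x j) := by
  rcases Nat.eq_zero_or_pos n with hn | hn
  · subst hn
    simp
  have hA : ∀ i j, 0 < A i j := fun i j => ha.trans_le (h1 i j)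
  set i0 : Fin n := ⟨0, hn⟩
  have hab : a ≤ b := (h1 i0 i0).trans (h2 i0 i0)
  have hne : (univ : Finset (Fin n)).Nonempty := ⟨i0, mem_univ _⟩
  set Ax : Fin n → ℝ := fun i => ∑ j, A i j * x j with hAx
  have hAx0 : ∀ i, 0 < Ax i := fun i => sum_pos (fun j _ => mul_pos (hA i j) (hx j)) hne
  set B : Fin n → ℝ := fun j => ∑ i, A i j / Ax i with hB
  have hB0 : ∀ j, 0 < B j := fun j => sum_pos (fun i _ => div_pos (hA i j) (hAx0 i)) hne
  set x' : Fin n → ℝ := fun j => 1 / B j with hx'
  have hx'0 : ∀ j, 0 < x' j := fun j => div_pos one_pos (hB0 j)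
  set R : Fin n → ℝ := fun i => ∑ j, A i j with hR
  have hR0 : ∀ i, 0 < R i := fun i => sum_pos (fun j _ => hA i j) hne
  have hAx'0 : ∀ i, 0 < ∑ j, A i j * x' j := fun i =>
    sum_pos (fun j _ => mul_pos (hA i j) (hx'0 j)) hne
  have e1 : ∑ j, x j * B j = n := by
    have : ∀ j, x j * B j = ∑ i, A i j * x j / Ax i := by
      intro j
      simp only [hB]
      rw [mul_sum]
      apply sum_congr rfl
      intro i _
      ring
    rw [sum_congr rfl fun j _ => this j, sum_comm]
    have h3 : ∀ i : Fin n, ∑ j, A i j * x j / Ax i = 1 := by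
      intro i
      rw [← sum_div]
      exact div_self (hAx0 i).ne'
    rw [sum_congr rfl fun i _ => h3 i]
    simp
  have s1 : ∑ j, Real.log (x j) ≤ ∑ j, Real.log (x' j) := by
    have h3 := log_sum_le (t := fun j => x j * B j) (fun j => mul_pos (hx j) (hB0 j)) e1
    have h4 : ∀ j, Real.log (x j * B j) = Real.log (x j) - Real.log (x' j) := by
      intro j
      simp only [hx']
      rw [Real.log_mul (hx j).ne' (hB0 j).ne', one_div, Real.log_inv]
      ring
    rw [sum_congr rfl fun j _ => h4 j, sum_sub_distrib] at h3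
    linarith
  have e2 : ∑ i, (∑ j, A i j * x' j) / Ax i = n := by
    have h3 : ∀ i, (∑ j, A i j * x' j) / Ax i = ∑ j, A i j / Ax i * x' j := by
      intro i
      rw [sum_div]
      apply sum_congr rfl
      intro j _
      ring
    rw [sum_congr rfl fun i _ => h3 i, sum_comm]
    have h4 : ∀ j : Fin n, ∑ i, A i j / Ax i * x' j = 1 := by
      intro j
      rw [← sum_mul]
      simp only [hx']
      exact mul_one_div_cancel (hB0 j).ne'
    rw [sum_congr rfl fun j _ => h4 j]
    simp
  have s2 : ∑ i, Real.log (∑ j, A i j * x' j) ≤ ∑ i, Real.log (Ax i) := by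
    have h3 := log_sum_le (t := fun i => (∑ j, A i j * x' j) / Ax i)
      (fun i => div_pos (hAx'0 i) (hAx0 i)) e2
    have h4 : ∀ i, Real.log ((∑ j, A i j * x' j) / Ax i) =
        Real.log (∑ j, A i j * x' j) - Real.log (Ax i) := fun i =>
      Real.log_div (hAx'0 i).ne' (hAx0 i).ne'
    rw [sum_congr rfl fun i _ => h4 i, sum_sub_distrib] at h3
    linarith
  have s3 : ∀ i, Real.log (R i) + ∑ j, A i j / R i * Real.log (x' j) ≤
      Real.log (∑ j, A i j * x' j) := by
    intro i
    have h3 := strictConcaveOn_log_Ioi.concaveOn.le_map_sum (t := univ)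
      (w := fun j => A i j / R i) (p := x') (fun j _ => (div_pos (hA i j) (hR0 i)).le)
      (by rw [← sum_div]; exact div_self (hR0 i).ne') (fun j _ => hx'0 j)
    simp only [smul_eq_mul] at h3
    have h4 : ∑ j, A i j / R i * x' j = (∑ j, A i j * x' j) / R i := by
      rw [sum_div]
      apply sum_congr rfl
      intro j _
      ring
    rw [h4, Real.log_div (hAx'0 i).ne' (hR0 i).ne'] at h3
    linarith
  set s : Fin n → ℝ := fun j => ∑ i, A i j / R i - 1 with hs
  have e3 : ∑ j, s j = 0 := by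
    simp only [hs]
    rw [sum_sub_distrib, sum_comm]
    have h4 : ∀ i : Fin n, ∑ j, A i j / R i = 1 := by
      intro i
      rw [← sum_div]
      exact div_self (hR0 i).ne'
    rw [sum_congr rfl fun i _ => h4 i]
    simp
  have e4 : ∑ i, ∑ j, A i j / R i * Real.log (x' j) - ∑ j, Real.log (x' j) =
      ∑ j, s j * Real.log (x' j) := by
    rw [sum_comm, ← sum_sub_distrib]
    apply sum_congr rfl
    intro j _
    simp only [hs]
    rw [← sum_mul]
    ring
  have s5 : ∀ j, |Real.log (x' j) - Real.log (x' i0)| ≤ Real.log (b / a) := by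
    have hcomp : ∀ j k, Real.log (B j) ≤ Real.log (b / a) + Real.log (B k) := by
      intro j k
      rw [← Real.log_mul (div_pos (ha.trans_le hab) ha).ne' (hB0 k).ne']
      apply Real.log_le_log (hB0 j)
      simp only [hB]
      rw [mul_sum]
      apply sum_le_sum
      intro i _
      rw [← mul_div_assoc]
      apply div_le_div_of_nonneg_right _ (hAx0 i).le
      calc A i j ≤ b := h2 i j
        _ = b / a * a := by field_simp
        _ ≤ b / a * A i k := mul_le_mul_of_nonneg_left (h1 i k) (div_pos (ha.trans_le hab) ha).le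
    intro j
    have h3 := hcomp j i0
    have h4 := hcomp i0 j
    have h5 : ∀ j, Real.log (x' j) = - Real.log (B j) := by
      intro j
      simp only [hx']
      rw [one_div, Real.log_inv]
    rw [h5, h5, abs_le]
    constructor <;> linarith
  have s6 : -(Real.log (b / a) * ∑ j, |s j|) ≤ ∑ j, s j * Real.log (x' j) := by
    have h3 : ∑ j, s j * Real.log (x' j) = ∑ j, s j * (Real.log (x' j) - Real.log (x' i0)) := by
      have : ∀ j, s j * (Real.log (x' j) - Real.log (x' i0)) =
          s j * Real.log (x' j) - s j * Real.log (x' i0) := fun j => by ring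
      rw [sum_congr rfl fun j _ => this j, sum_sub_distrib, ← sum_mul, e3, zero_mul, sub_zero]
    rw [h3, mul_sum, ← sum_neg_distrib]
    apply sum_le_sum
    intro j _
    have h4 := neg_abs_le (s j * (Real.log (x' j) - Real.log (x' i0)))
    rw [abs_mul] at h4
    have h5 := mul_le_mul_of_nonneg_left (s5 j) (abs_nonneg (s j))
    linarith
  have s7 := sum_le_sum fun i (_ : i ∈ (univ : Finset (Fin n))) => s3 i
  rw [sum_add_distrib] at s7
  linarith

/-- The lower bound for the permanent. -/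
theorem per_ge {n : ℕ} {A : Fin n → Fin n → ℝ} {a b : ℝ} (ha : 0 < a) (h1 : ∀ i j, a ≤ A i j)
    (h2 : ∀ i j, A i j ≤ b) :
    Real.exp (∑ i, Real.log (∑ j, A i j) -
      Real.log (b / a) * ∑ j, |∑ i, A i j / (∑ k, A i k) - 1|) *
        ((n.factorial : ℝ) / (n : ℝ) ^ n) ≤ per A := by
  have hA : ∀ i j, 0 < A i j := fun i j => ha.trans_le (h1 i j)
  set M : Matrix (Fin n) (Fin n) ℝ := A with hM
  have h := gurvits n (pol M) (pol_hom M) (stab_pos M hA)
    (Real.exp (∑ i, Real.log (∑ j, A i j) -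
      Real.log (b / a) * ∑ j, |∑ i, A i j / (∑ k, A i k) - 1|)) (Real.exp_pos _) (by
    intro x hx
    rw [pol_ev]
    have h3 : ∏ i, ∑ j, ((M i j : ℝ) : ℂ) * (x j : ℂ) = ((∏ i, ∑ j, A i j * x j : ℝ) : ℂ) := by
      push_cast; rfl
    rw [h3, Complex.norm_real]
    refine le_trans ?_ (le_abs_self _)
    have h4 := cap_ge ha h1 h2 hx
    have hAx0 : ∀ i, 0 < ∑ j, A i j * x j := fun i =>
      sum_pos (fun j _ => mul_pos (hA i j) (hx j)) ⟨i, mem_univ i⟩
    have h5 : ∏ i, x i = Real.exp (∑ j, Real.log (x j)) := by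
      rw [Real.exp_sum]
      exact prod_congr rfl fun j _ => (Real.exp_log (hx j)).symm
    have h6 : ∏ i, ∑ j, A i j * x j = Real.exp (∑ i, Real.log (∑ j, A i j * x j)) := by
      rw [Real.exp_sum]
      exact prod_congr rfl fun i _ => (Real.exp_log (hAx0 i)).symm
    rw [h5, h6, ← Real.exp_add]
    apply Real.exp_le_exp.2
    linarith)
  rw [GG_eq, pol_coeff, Complex.norm_real] at h
  have h0 : 0 ≤ ∑ σ : Equiv.Perm (Fin n), ∏ i, M i (σ i) :=
    sum_nonneg fun σ _ => prod_nonneg fun i _ => (hA _ _).le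
  rw [Real.norm_of_nonneg h0] at h
  exact h

end Pool.Agent.Q68.PM
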