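import Pool.Agent.Q68.PM.Core

set_option autoImplicit false

/-!
# Scaling: reduction to bounded scaling functions
-/

open MeasureTheory Filter Topology Real ProbabilityTheory

namespace Pool.Agent.Q68.PM

open _root_.Q68.PET

variable {Ω : Type*} [MeasurableSpace Ω]

/-- The sigma-algebras of invariant sets are independent. -/
theorem Act.indepFun {P : Measure Ω} [IsProbabilityMeasure P] {T₁ T₂ : Ω → Ω} (h : Act P T₁ T₂)
    {x y : Ω → ℝ} (hx : Measurable[MeasurableSpace.invariants T₁] x)
    (hy : Measurable[MeasurableSpace.invariants T₂] y) : IndepFun x y P := by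
  rw [indepFun_iff_measure_inter_preimage_eq_mul]
  intro s t hs ht
  have hA := hx hs
  have hB := hy ht
  set A := x ⁻¹' s
  set B := y ⁻¹' t
  have hle := MeasurableSpace.invariants_le T₁
  have hBm : MeasurableSet B := hB.1
  have hAm : MeasurableSet A := hA.1
  have hind : Integrable (B.indicator (fun _ => (1:ℝ))) P := (integrable_const (1:ℝ)).indicator hBm
  have hindm : Measurable[MeasurableSpace.invariants T₂] (B.indicator (fun _ => (1:ℝ))) :=
    measurable_const.indicator hB
  have h1 := setIntegral_condExp hle hind hA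
  have h2 := h.indep hindm hind
  have h3 : ∫ ω in A, (P[B.indicator (fun _ => (1:ℝ)) | MeasurableSpace.invariants T₁]) ω ∂P =
      P.real A * P.real B := by
    rw [setIntegral_congr_ae (g := fun _ => P.real B) hAm]
    · rw [setIntegral_const, smul_eq_mul]
    · filter_upwards [h2] with ω hω _
      rw [hω, integral_indicator_const (1:ℝ) hBm, smul_eq_mul, mul_one]
  have h4 : ∫ ω in A, B.indicator (fun _ => (1:ℝ)) ω ∂P = P.real (A ∩ B) := by
    rw [setIntegral_indicator hBm, setIntegral_const, smul_eq_mul, mul_one]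
  rw [h3, h4] at h1
  have h5 : (P (A ∩ B)).toReal = (P A * P B).toReal := by
    rw [ENNReal.toReal_mul]
    exact h1.symm
  exact (ENNReal.toReal_eq_toReal_iff' (measure_ne_top _ _)
    (ENNReal.mul_ne_top (measure_ne_top _ _) (measure_ne_top _ _))).1 h5

/-- The class of the scaling functions. -/
structure InG (P : Measure Ω) (m : MeasurableSpace Ω) (g : Ω → ℝ) : Prop where
  meas : Measurable[m] g
  pos : ∀ ω, 0 < g ω
  logi : Integrable (fun ω => Real.log (g ω)) P

theorem InG.int2 {P : Measure Ω} [IsProbabilityMeasure P] {T₁ T₂ : Ω → Ω} (h : Act P T₁ T₂)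
    {x y : Ω → ℝ} (hx : InG P (MeasurableSpace.invariants T₁) x)
    (hy : InG P (MeasurableSpace.invariants T₂) y) {f : Ω → ℝ} {c : ℝ} (hc : 0 < c)
    (h1 : ∀ ω, c ≤ f ω) (hi : Integrable (fun ω => x ω * f ω * y ω) P) : Integrable y P := by
  have hxm := inv_meas hx.meas
  have hym := inv_meas hy.meas
  have hxy : Integrable (fun ω => x ω * y ω) P := by
    apply Integrable.mono' (hi.const_mul (1 / c)) (hxm.mul hym).aestronglyMeasurable
    filter_upwards with ω
    have hx0 := hx.pos ω
    have hy0 := hy.pos ω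
    show |x ω * y ω| ≤ 1 / c * (x ω * f ω * y ω)
    rw [abs_of_pos (mul_pos hx0 hy0), one_div, inv_mul_eq_div, le_div_iff₀ hc]
    have := mul_le_mul_of_nonneg_left (h1 ω) (mul_pos hx0 hy0).le
    linarith
  refine (h.indepFun hx.meas hy.meas).integrable_right_of_integrable_op (fun a b => a * b) 1
    one_ne_zero (fun a b => ?_) hxy hxm.aestronglyMeasurable hym.aestronglyMeasurable ?_
  · rw [ENNReal.coe_one, one_mul, enorm_mul]
  · intro h0
    have h2 : ∀ᵐ ω ∂P, False := by
      filter_upwards [h0] with ω hω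
      exact (hx.pos ω).ne' hω
    have h3 := h2.exists
    obtain ⟨_, h4⟩ := h3
    exact h4

/-- The logarithm of the functional. -/
noncomputable def vl (P : Measure Ω) (f x y : Ω → ℝ) : ℝ :=
  Real.log (∫ ω, x ω * f ω * y ω ∂P) - ∫ ω, Real.log (x ω) ∂P - ∫ ω, Real.log (y ω) ∂P

theorem int_pos {P : Measure Ω} [IsProbabilityMeasure P] {g : Ω → ℝ} (hg : Integrable g P)
    (h0 : ∀ ω, 0 < g ω) : 0 < ∫ ω, g ω ∂P := by
  rw [integral_pos_iff_support_of_nonneg (fun ω => (h0 ω).le) hg]
  have : Function.support g = Set.univ := by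
    ext ω
    simp [(h0 ω).ne']
  rw [this, measure_univ]
  exact one_pos

theorem log_int {P : Measure Ω} [IsProbabilityMeasure P] {g : Ω → ℝ} (hg : Integrable g P)
    (h0 : ∀ ω, 0 < g ω) (hl : Integrable (fun ω => Real.log (g ω)) P) :
    ∫ ω, Real.log (g ω) ∂P ≤ Real.log (∫ ω, g ω ∂P) := by
  set M := ∫ ω, g ω ∂P with hM
  have hM0 : 0 < M := int_pos hg h0
  have h1 : ∀ ω, Real.log (g ω) ≤ g ω / M - 1 + Real.log M := by
    intro ω
    have h2 := Real.log_le_sub_one_of_pos (div_pos (h0 ω) hM0)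
    rw [Real.log_div (h0 ω).ne' hM0.ne'] at h2
    linarith
  have h3 : Integrable (fun ω => g ω / M - 1 + Real.log M) P :=
    ((hg.div_const M).sub (integrable_const _)).add (integrable_const _)
  refine (integral_mono hl h3 h1).trans (le_of_eq ?_)
  have e1 : ∫ ω, (g ω / M - 1 + Real.log M) ∂P = ∫ ω, (g ω / M - 1) ∂P + ∫ _ω, Real.log M ∂P :=
    integral_add ((hg.div_const M).sub (integrable_const _)) (integrable_const _)
  have e2 : ∫ ω, (g ω / M - 1) ∂P = ∫ ω, g ω / M ∂P - ∫ _ω, (1:ℝ) ∂P :=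
    integral_sub (hg.div_const M) (integrable_const _)
  rw [e1, e2, integral_div, ← hM, div_self hM0.ne']
  simp

theorem bdd_int {P : Measure Ω} [IsProbabilityMeasure P] {g : Ω → ℝ} (hg : Measurable g) {a b : ℝ}
    (h1 : ∀ ω, a ≤ g ω) (h2 : ∀ ω, g ω ≤ b) : Integrable g P := by
  apply Integrable.mono' (integrable_const (max |a| |b|)) hg.aestronglyMeasurable
  filter_upwards with ω
  rw [Real.norm_eq_abs]
  exact abs_le_max_abs_abs (h1 ω) (h2 ω)

theorem bdd_logint {P : Measure Ω} [IsProbabilityMeasure P] {g : Ω → ℝ} (hg : Measurable g) {a b : ℝ}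
    (ha : 0 < a) (h1 : ∀ ω, a ≤ g ω) (h2 : ∀ ω, g ω ≤ b) :
    Integrable (fun ω => Real.log (g ω)) P :=
  bdd_int (Real.measurable_log.comp hg) (fun ω => Real.log_le_log ha (h1 ω))
    (fun ω => Real.log_le_log (ha.trans_le (h1 ω)) (h2 ω))

/-- One scaling step. -/
theorem step {P : Measure Ω} [IsProbabilityMeasure P] {T₁ T₂ : Ω → Ω} (h : Act P T₁ T₂)
    {f : Ω → ℝ} (hfm : Measurable f) {c C : ℝ} (hc : 0 < c) (h1 : ∀ ω, c ≤ f ω) (h2 : ∀ ω, f ω ≤ C)
    {x y : Ω → ℝ} (hx : InG P (MeasurableSpace.invariants T₁) x)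
    (hy : InG P (MeasurableSpace.invariants T₂) y) (hyi : Integrable y P)
    (hi : Integrable (fun ω => x ω * f ω * y ω) P) :
    ∃ x' : Ω → ℝ, InG P (MeasurableSpace.invariants T₁) x' ∧
      (∀ ω, 1 / (C * ∫ ω, y ω ∂P) ≤ x' ω) ∧ (∀ ω, x' ω ≤ 1 / (c * ∫ ω, y ω ∂P)) ∧
      (∀ᵐ ω ∂P, x' ω * (P[fun ω => f ω * y ω | MeasurableSpace.invariants T₁]) ω = 1) ∧
      Integrable (fun ω => x' ω * f ω * y ω) P ∧ ∫ ω, x' ω * f ω * y ω ∂P = 1 ∧
      vl P f x' y ≤ vl P f x y := by
  have hle := MeasurableSpace.invariants_le T₁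
  have hym := inv_meas hy.meas
  have hxm := inv_meas hx.meas
  set m := ∫ ω, y ω ∂P with hm
  have hm0 : 0 < m := int_pos hyi hy.pos
  obtain ⟨ω₀⟩ : Nonempty Ω := by
    by_contra hc
    rw [not_nonempty_iff] at hc
    have h3 : P Set.univ = 0 := by
      rw [Set.eq_empty_of_isEmpty (Set.univ : Set Ω), measure_empty]
    rw [measure_univ] at h3
    exact one_ne_zero h3
  have hcC : c ≤ C := (h1 ω₀).trans (h2 ω₀)
  have hC : 0 < C := hc.trans_le hcC
  have hfy : Integrable (fun ω => f ω * y ω) P := by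
    apply Integrable.mono' (hyi.const_mul C) (hfm.mul hym).aestronglyMeasurable
    filter_upwards with ω
    have hy0 := hy.pos ω
    have hf0 := hc.trans_le (h1 ω)
    show |f ω * y ω| ≤ C * y ω
    rw [abs_of_pos (mul_pos hf0 hy0)]
    exact mul_le_mul_of_nonneg_right (h2 ω) hy0.le
  set u := P[fun ω => f ω * y ω | MeasurableSpace.invariants T₁] with hu
  have hylow : ∀ᵐ ω ∂P, (P[fun ω => c * y ω | MeasurableSpace.invariants T₁]) ω = c * m := by
    have := h.indep (g := fun ω => c * y ω) (hy.meas.const_mul c) (hyi.const_mul c)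
    rwa [integral_const_mul] at this
  have hyup : ∀ᵐ ω ∂P, (P[fun ω => C * y ω | MeasurableSpace.invariants T₁]) ω = C * m := by
    have := h.indep (g := fun ω => C * y ω) (hy.meas.const_mul C) (hyi.const_mul C)
    rwa [integral_const_mul] at this
  have hu1 : ∀ᵐ ω ∂P, c * m ≤ u ω := by
    have h3 := condExp_mono (m := MeasurableSpace.invariants T₁) (hyi.const_mul c) hfy
      (by
        filter_upwards with ω
        exact mul_le_mul_of_nonneg_right (h1 ω) (hy.pos ω).le)
    filter_upwards [h3, hylow] with ω h4 h5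
    rw [h5] at h4
    exact h4
  have hu2 : ∀ᵐ ω ∂P, u ω ≤ C * m := by
    have h3 := condExp_mono (m := MeasurableSpace.invariants T₁) hfy (hyi.const_mul C)
      (by
        filter_upwards with ω
        exact mul_le_mul_of_nonneg_right (h2 ω) (hy.pos ω).le)
    filter_upwards [h3, hyup] with ω h4 h5
    rw [h5] at h4
    exact h4
  set u' : Ω → ℝ := fun ω => max (c * m) (min (u ω) (C * m)) with hu'
  have hum : Measurable[MeasurableSpace.invariants T₁] u := stronglyMeasurable_condExp.measurable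
  have hu'm : Measurable[MeasurableSpace.invariants T₁] u' := by
    have hg : Measurable (fun t : ℝ => max (c * m) (min t (C * m))) := by fun_prop
    exact hg.comp hum
  have hcm : 0 < c * m := mul_pos hc hm0
  have hu'1 : ∀ ω, c * m ≤ u' ω := fun ω => le_max_left _ _
  have hu'2 : ∀ ω, u' ω ≤ C * m := fun ω =>
    max_le (mul_le_mul_of_nonneg_right hcC hm0.le) (min_le_right _ _)
  have hu'0 : ∀ ω, 0 < u' ω := fun ω => hcm.trans_le (hu'1 ω)
  have huu' : ∀ᵐ ω ∂P, u ω = u' ω := by
    filter_upwards [hu1, hu2] with ω h3 h4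
    simp only [hu']
    rw [min_eq_left h4, max_eq_right h3]
  set x' : Ω → ℝ := fun ω => 1 / u' ω with hx'
  have hx'm : Measurable[MeasurableSpace.invariants T₁] x' := by
    have hg : Measurable (fun t : ℝ => 1 / t) := by fun_prop
    exact hg.comp hu'm
  have hx'1 : ∀ ω, 1 / (C * m) ≤ x' ω := fun ω => one_div_le_one_div_of_le (hu'0 ω) (hu'2 ω)
  have hx'2 : ∀ ω, x' ω ≤ 1 / (c * m) := fun ω => one_div_le_one_div_of_le hcm (hu'1 ω)
  have hCm : 0 < C * m := mul_pos hC hm0
  have hx'0 : ∀ ω, 0 < x' ω := fun ω => div_pos one_pos (hu'0 ω)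
  have hx'G : InG P (MeasurableSpace.invariants T₁) x' :=
    ⟨hx'm, hx'0, bdd_logint (inv_meas hx'm) (div_pos one_pos hCm) hx'1 hx'2⟩
  have hi' : Integrable (fun ω => x' ω * f ω * y ω) P := by
    apply Integrable.mono' (hfy.const_mul (1 / (c * m)))
      (((inv_meas hx'm).mul hfm).mul hym).aestronglyMeasurable
    filter_upwards with ω
    have h3 := hx'0 ω
    have h4 := hc.trans_le (h1 ω)
    have h5 := hy.pos ω
    show |x' ω * f ω * y ω| ≤ 1 / (c * m) * (f ω * y ω)
    rw [abs_of_pos (mul_pos (mul_pos h3 h4) h5), mul_assoc]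
    exact mul_le_mul_of_nonneg_right (hx'2 ω) (mul_pos h4 h5).le
  have hpull : ∀ z : Ω → ℝ, Measurable[MeasurableSpace.invariants T₁] z →
      Integrable (fun ω => z ω * f ω * y ω) P → ∫ ω, z ω * f ω * y ω ∂P = ∫ ω, z ω * u' ω ∂P := by
    intro z hz hzi
    have e : (fun ω => z ω * f ω * y ω) = z * fun ω => f ω * y ω := by
      funext ω
      simp [mul_assoc]
    rw [← integral_condExp hle, e]
    have h3 := condExp_mul_of_stronglyMeasurable_left (μ := P) (m := MeasurableSpace.invariants T₁)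
      hz.stronglyMeasurable (by rw [← e]; exact hzi) hfy
    apply integral_congr_ae
    filter_upwards [h3, huu'] with ω h4 h5
    rw [h4, Pi.mul_apply, ← hu, h5]
  have hi'1 : ∫ ω, x' ω * f ω * y ω ∂P = 1 := by
    rw [hpull x' hx'm hi']
    have : (fun ω => x' ω * u' ω) = fun _ => (1:ℝ) := by
      funext ω
      simp only [hx']
      exact one_div_mul_cancel (hu'0 ω).ne'
    rw [this]
    simp
  refine ⟨x', hx'G, hx'1, hx'2, ?_, hi', hi'1, ?_⟩
  · filter_upwards [huu'] with ω h3
    rw [h3]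
    exact one_div_mul_cancel (hu'0 ω).ne'
  · unfold vl
    rw [hi'1, Real.log_one, hpull x hx.meas hi]
    have hlogu : Integrable (fun ω => Real.log (u' ω)) P := bdd_logint (inv_meas hu'm) hcm hu'1 hu'2
    have e1 : ∫ ω, Real.log (x' ω) ∂P = - ∫ ω, Real.log (u' ω) ∂P := by
      rw [← integral_neg]
      congr 1
      funext ω
      simp only [hx']
      rw [one_div, Real.log_inv]
    have hxu : Integrable (fun ω => x ω * u' ω) P := by
      -- `x` is integrable
      have hxi : Integrable x P := by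
        have := InG.int2 h.swap hy hx hc h1 (hi.congr (by
          filter_upwards with ω
          ring))
        exact this
      apply Integrable.mono' (hxi.const_mul (C * m)) (hxm.mul (inv_meas hu'm)).aestronglyMeasurable
      filter_upwards with ω
      have h3 := hx.pos ω
      have h4 := hu'0 ω
      show |x ω * u' ω| ≤ C * m * x ω
      rw [abs_of_pos (mul_pos h3 h4), mul_comm]
      exact mul_le_mul_of_nonneg_right (hu'2 ω) h3.le
    have hsplit : (fun ω => Real.log (x ω * u' ω)) = fun ω => Real.log (x ω) + Real.log (u' ω) := by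
      funext ω
      exact Real.log_mul (hx.pos ω).ne' (hu'0 ω).ne'
    have h3 := log_int hxu (fun ω => mul_pos (hx.pos ω) (hu'0 ω)) (by
      rw [hsplit]
      exact hx.logi.add hlogu)
    rw [hsplit, integral_add hx.logi hlogu] at h3
    rw [e1]
    linarith

end Pool.Agent.Q68.PM
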