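import Pool.Agent.Y372.PC.Breg

set_option autoImplicit false

/-!
# An upper bound for the permanent of a nonnegative matrix with bounded entries
-/

open Finset Real

namespace Pool.Agent.Q68.PM

/-- The permanent. -/
noncomputable def per {n : ℕ} (A : Fin n → Fin n → ℝ) : ℝ := ∑ σ : Equiv.Perm (Fin n), ∏ i, A i (σ i)

theorem log_fact_le : ∀ d : ℕ, Real.log ((d + 1 : ℕ).factorial : ℝ) ≤
    (d + 2) * Real.log (d + 1) - (d + 1) + 1 := by
  intro d
  induction d with
  | zero => simp
  | succ d ih =>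
    have hd : (0:ℝ) < d + 1 := by positivity
    have hd2 : (0:ℝ) < d + 1 + 1 := by positivity
    rw [Nat.factorial_succ, Nat.cast_mul, Real.log_mul (by positivity) (by positivity)]
    have h1 : 1 / ((d:ℝ) + 1 + 1) ≤ Real.log (d + 1 + 1) - Real.log (d + 1) := by
      rw [← Real.log_div hd2.ne' hd.ne']
      have h2 := Real.one_sub_inv_le_log_of_pos (show 0 < ((d:ℝ) + 1 + 1) / (d + 1) by positivity)
      have h3 : 1 - (((d:ℝ) + 1 + 1) / (d + 1))⁻¹ = 1 / ((d:ℝ) + 1 + 1) := by
        field_simp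
        ring
      rw [h3] at h2
      exact h2
    rw [div_le_iff₀ hd2] at h1
    push_cast
    nlinarith

theorem phi_le {n d : ℕ} (hn : 1 ≤ n) (hd : d ≤ n) :
    Real.exp (Real.log (d.factorial : ℝ) / d) ≤ (d + 3 * (1 + Real.log n)) / Real.exp 1 := by
  have he : Real.exp 1 < 3 := Real.exp_one_lt_d9.trans (by norm_num)
  have hn1 : (1:ℝ) ≤ n := by exact_mod_cast hn
  have hln : 0 ≤ Real.log n := Real.log_nonneg hn1
  rcases Nat.eq_zero_or_pos d with h0 | h0
  · subst h0
    simp only [Nat.factorial_zero, Nat.cast_one, Real.log_one, Nat.cast_zero, zero_add]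
    rw [zero_div, Real.exp_zero, le_div_iff₀ (Real.exp_pos 1)]
    linarith
  · obtain ⟨k, rfl⟩ : ∃ k, d = k + 1 := ⟨d - 1, by omega⟩
    have h1 := log_fact_le k
    have hk : (0:ℝ) < (k:ℝ) + 1 := by positivity
    have hk1 : (1:ℝ) ≤ (k:ℝ) + 1 := by
      have : (0:ℝ) ≤ k := by positivity
      linarith
    have hlk : 0 ≤ Real.log ((k:ℝ) + 1) := Real.log_nonneg hk1
    have hlkn : Real.log ((k:ℝ) + 1) ≤ Real.log n := by
      apply Real.log_le_log hk
      exact_mod_cast hd
    set r := (1 + Real.log ((k:ℝ) + 1)) / ((k:ℝ) + 1) with hr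
    have hr0 : 0 ≤ r := by positivity
    have hr1 : r ≤ 1 := by
      rw [hr, div_le_one hk]
      have := Real.log_le_sub_one_of_pos hk
      linarith
    have h2 : Real.log ((k + 1 : ℕ).factorial : ℝ) / ((k + 1 : ℕ) : ℝ) ≤
        Real.log ((k:ℝ) + 1) - 1 + r := by
      push_cast
      rw [div_le_iff₀ hk, hr]
      have : (Real.log ((k:ℝ) + 1) - 1 + (1 + Real.log ((k:ℝ) + 1)) / ((k:ℝ) + 1)) * ((k:ℝ) + 1) =
          (Real.log ((k:ℝ) + 1) - 1) * ((k:ℝ) + 1) + (1 + Real.log ((k:ℝ) + 1)) := by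
        field_simp
      rw [this]
      linarith
    have h3 : Real.exp r ≤ 1 + 2 * r := by
      have h4 := convexOn_exp.2 (Set.mem_univ (0:ℝ)) (Set.mem_univ (1:ℝ))
        (show 0 ≤ 1 - r by linarith) hr0 (by ring)
      simp only [smul_eq_mul, mul_zero, mul_one, zero_add, Real.exp_zero] at h4
      nlinarith
    calc Real.exp (Real.log ((k + 1 : ℕ).factorial : ℝ) / ((k + 1 : ℕ) : ℝ))
        ≤ Real.exp (Real.log ((k:ℝ) + 1) - 1 + r) := Real.exp_le_exp.2 h2
      _ = ((k:ℝ) + 1) / Real.exp 1 * Real.exp r := by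
          rw [Real.exp_add, Real.exp_sub, Real.exp_log hk]
      _ ≤ ((k:ℝ) + 1) / Real.exp 1 * (1 + 2 * r) :=
          mul_le_mul_of_nonneg_left h3 (by positivity)
      _ = ((k:ℝ) + 1 + 2 * (1 + Real.log ((k:ℝ) + 1))) / Real.exp 1 := by
          rw [hr]
          field_simp
      _ ≤ (((k + 1 : ℕ) : ℝ) + 3 * (1 + Real.log n)) / Real.exp 1 := by
          apply div_le_div_of_nonneg_right _ (Real.exp_pos 1).le
          push_cast
          linarith

/-- The weight of a random subset. -/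
noncomputable def wt {n : ℕ} (p : Fin n → ℝ) (S : Finset (Fin n)) : ℝ :=
  (∏ j ∈ S, p j) * ∏ j ∈ univ \ S, (1 - p j)

theorem wt_nonneg {n : ℕ} {p : Fin n → ℝ} (h0 : ∀ j, 0 ≤ p j) (h1 : ∀ j, p j ≤ 1)
    (S : Finset (Fin n)) : 0 ≤ wt p S :=
  mul_nonneg (prod_nonneg fun j _ => h0 j) (prod_nonneg fun j _ => by linarith [h1 j])

theorem wt_sum {n : ℕ} (p : Fin n → ℝ) : ∑ S, wt p S = 1 := by
  have h := Finset.prod_add (fun j => p j) (fun j => 1 - p j) (univ : Finset (Fin n))
  have h1 : ∏ j : Fin n, (p j + (1 - p j)) = 1 := by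
    apply prod_eq_one
    intro j _
    ring
  rw [h1, powerset_univ] at h
  exact h.symm

theorem wt_mem {n : ℕ} (p : Fin n → ℝ) (k : Fin n) :
    ∑ S, (if k ∈ S then wt p S else 0) = p k := by
  have h := Finset.prod_add (fun j => p j) (fun j => if j = k then 0 else 1 - p j)
    (univ : Finset (Fin n))
  have h1 : ∏ j : Fin n, (p j + (if j = k then 0 else 1 - p j)) = p k := by
    rw [prod_eq_single k]
    · simp
    · intro j _ hj
      rw [if_neg hj]
      ring
    · simp
  rw [h1, powerset_univ] at h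
  rw [h]
  apply sum_congr rfl
  intro S _
  split_ifs with hk
  · unfold wt
    congr 1
    apply prod_congr rfl
    intro j hj
    rw [if_neg]
    rintro rfl
    exact (mem_sdiff.1 hj).2 hk
  · symm
    apply mul_eq_zero_of_right
    apply prod_eq_zero (i := k)
    · simp [hk]
    · simp

theorem wt_card {n : ℕ} (p : Fin n → ℝ) : ∑ S, wt p S * (S.card : ℝ) = ∑ j, p j := by
  have h : ∀ S : Finset (Fin n), wt p S * (S.card : ℝ) = ∑ k, (if k ∈ S then wt p S else 0) := by
    intro S
    rw [← sum_filter, sum_const, filter_mem_eq_inter, univ_inter, nsmul_eq_mul, mul_comm]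
  rw [sum_congr rfl fun S _ => h S, sum_comm]
  exact sum_congr rfl fun k _ => wt_mem p k

/-- The bound for matrices with entries in `[0, 1]`. -/
theorem per_le_one {n : ℕ} (hn : 1 ≤ n) {A : Fin n → Fin n → ℝ} (h0 : ∀ i j, 0 ≤ A i j)
    (h1 : ∀ i j, A i j ≤ 1) :
    per A ≤ ∏ i, ((∑ j, A i j + 3 * (1 + Real.log n)) / Real.exp 1) := by
  classical
  set φ : ℕ → ℝ := fun d => Real.exp (Real.log (d.factorial : ℝ) / d) with hφ
  have e1 : per A = ∑ B : Fin n → Finset (Fin n),
      (∏ i, wt (A i) (B i)) * ((Y372.PC.adm B).card : ℝ) := by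
    have h2 : ∀ σ : Equiv.Perm (Fin n), ∏ i, A i (σ i) =
        ∑ B : Fin n → Finset (Fin n), ∏ i, (if σ i ∈ B i then wt (A i) (B i) else 0) := by
      intro σ
      rw [← Fintype.piFinset_univ, ← Finset.prod_univ_sum (fun _ => univ)
        (fun i S => if σ i ∈ S then wt (A i) S else 0)]
      apply prod_congr rfl
      intro i _
      exact (wt_mem (A i) (σ i)).symm
    unfold per
    rw [sum_congr rfl fun σ _ => h2 σ, sum_comm]
    apply sum_congr rfl
    intro B _
    have h3 : ∀ σ : Equiv.Perm (Fin n), ∏ i, (if σ i ∈ B i then wt (A i) (B i) else 0) =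
        if σ ∈ Y372.PC.adm B then ∏ i, wt (A i) (B i) else 0 := by
      intro σ
      by_cases hσ : σ ∈ Y372.PC.adm B
      · rw [if_pos hσ]
        apply prod_congr rfl
        intro i _
        rw [if_pos ((mem_filter.1 hσ).2 i)]
      · rw [if_neg hσ]
        have : ∃ i, σ i ∉ B i := by
          by_contra hc
          rw [not_exists] at hc
          exact hσ (mem_filter.2 ⟨mem_univ _, fun i => not_not.1 (hc i)⟩)
        obtain ⟨i, hi⟩ := this
        apply prod_eq_zero (mem_univ i)
        rw [if_neg hi]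
    rw [sum_congr rfl fun σ _ => h3 σ, ← sum_filter, sum_const, filter_mem_eq_inter, univ_inter,
      nsmul_eq_mul, mul_comm]
  have e2 : ∀ B : Fin n → Finset (Fin n),
      (∏ i, wt (A i) (B i)) * ((Y372.PC.adm B).card : ℝ) ≤ ∏ i, (wt (A i) (B i) * φ (B i).card) := by
    intro B
    rw [prod_mul_distrib]
    apply mul_le_mul_of_nonneg_left _ (prod_nonneg fun i _ => wt_nonneg (h0 i) (h1 i) _)
    refine (Y372.PC.bregman B).trans (le_of_eq ?_)
    rw [Real.exp_sum]
  rw [e1]
  refine (sum_le_sum fun B _ => e2 B).trans ?_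
  rw [← Fintype.piFinset_univ, ← Finset.prod_univ_sum (fun _ => univ)
    (fun i S => wt (A i) S * φ S.card)]
  apply prod_le_prod
  · intro i _
    exact sum_nonneg fun S _ => mul_nonneg (wt_nonneg (h0 i) (h1 i) S) (Real.exp_pos _).le
  · intro i _
    have h4 : ∀ S : Finset (Fin n), wt (A i) S * φ S.card ≤
        wt (A i) S * ((S.card + 3 * (1 + Real.log n)) / Real.exp 1) := by
      intro S
      apply mul_le_mul_of_nonneg_left _ (wt_nonneg (h0 i) (h1 i) S)
      exact phi_le hn (by simpa using card_le_univ S)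
    refine (sum_le_sum fun S _ => h4 S).trans (le_of_eq ?_)
    have h5 : ∀ S : Finset (Fin n), wt (A i) S * ((S.card + 3 * (1 + Real.log n)) / Real.exp 1) =
        (wt (A i) S * S.card + wt (A i) S * (3 * (1 + Real.log n))) / Real.exp 1 := by
      intro S
      ring
    rw [sum_congr rfl fun S _ => h5 S, ← sum_div, sum_add_distrib, wt_card, ← sum_mul, wt_sum,
      one_mul]

/-- The bound for matrices with entries in `[0, b]`. -/
theorem per_le {n : ℕ} (hn : 1 ≤ n) {A : Fin n → Fin n → ℝ} {b : ℝ} (hb : 0 < b)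
    (h0 : ∀ i j, 0 ≤ A i j) (h1 : ∀ i j, A i j ≤ b) :
    per A ≤ ∏ i, ((∑ j, A i j + b * (3 * (1 + Real.log n))) / Real.exp 1) := by
  have h := per_le_one hn (A := fun i j => A i j / b) (fun i j => div_nonneg (h0 i j) hb.le)
    (fun i j => (div_le_one hb).2 (h1 i j))
  have e1 : per (fun i j => A i j / b) = per A / b ^ n := by
    unfold per
    rw [sum_div]
    apply sum_congr rfl
    intro σ _
    rw [prod_div_distrib, prod_const, card_univ, Fintype.card_fin]
  rw [e1, div_le_iff₀ (by positivity)] at h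
  refine h.trans (le_of_eq ?_)
  have e2 : b ^ n = ∏ _i : Fin n, b := by rw [prod_const, card_univ, Fintype.card_fin]
  rw [e2, ← prod_mul_distrib]
  apply prod_congr rfl
  intro i _
  rw [← sum_div]
  field_simp

end Pool.Agent.Q68.PM
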